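import Pool.Agent.Lib_helper25.Stk.Defs

/-! Block ACC. -/

set_option autoImplicit false

open Set Filter Topology Cardinal

namespace Pool.Agent.Lib_helper25.Stk

theorem acc_mem_bind {T : Type} (w : Ultrafilter ℕ) (u : ℕ → Ultrafilter T) (A : Set T) :
    A ∈ w.bind u ↔ {k | A ∈ u k} ∈ w := Iff.rfl

/-- every sequence has an ultralimit -/
theorem acc_ulim {Y : Type} [TopologicalSpace Y]
    (hcc : ∀ v : ℕ → Y, Function.Injective v → ∃ (w : Ultrafilter ℕ) (y : Y),
      (w : Filter ℕ) ≤ atTop ∧ Tendsto v (w : Filter ℕ) (𝓝 y)) (v : ℕ → Y) :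
    ∃ (w : Ultrafilter ℕ) (y : Y), (w : Filter ℕ) ≤ atTop ∧ Tendsto v (w : Filter ℕ) (𝓝 y) := by
  by_cases hfin : (Set.range v).Finite
  · -- some value is taken infinitely often
    have : ∃ y, {k | v k = y}.Infinite := by
      by_contra hcon
      push Not at hcon
      have h1 : (⋃ y ∈ Set.range v, {k | v k = y}).Finite :=
        hfin.biUnion fun y _ => hcon y
      have h2 : (⋃ y ∈ Set.range v, {k | v k = y}) = Set.univ := by
        ext k
        simp
      rw [h2] at h1
      exact Set.infinite_univ h1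
    obtain ⟨y, hy⟩ := this
    have hne : (atTop ⊓ 𝓟 {k | v k = y}).NeBot := by
      rw [← Nat.cofinite_eq_atTop]
      exact hy.cofinite_inf_principal_neBot
    refine ⟨Ultrafilter.of (atTop ⊓ 𝓟 {k | v k = y}), y,
      le_trans (Ultrafilter.of_le _) inf_le_left, ?_⟩
    have h3 : {k | v k = y} ∈ (Ultrafilter.of (atTop ⊓ 𝓟 {k | v k = y}) : Filter ℕ) :=
      Ultrafilter.of_le _ (mem_inf_of_right (mem_principal_self _))
    refine tendsto_nhds.2 fun V _ hyV => ?_
    filter_upwards [h3] with k hk
    change v k ∈ V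
    rw [show v k = y from hk]
    exact hyV
  · have hinf : (Set.range v).Infinite := hfin
    -- injective subsequence
    have : Infinite (Set.range v) := hinf.to_subtype
    let e : ℕ ↪ Set.range v := Infinite.natEmbedding _
    have hk : ∀ n, ∃ k, v k = (e n).1 := fun n => (e n).2
    choose k hk using hk
    have hinj : Function.Injective (fun n => v (k n)) := by
      intro a b hab
      have : (e a).1 = (e b).1 := by rw [← hk a, ← hk b]; exact hab
      exact e.injective (Subtype.ext this)
    have hkinj : Function.Injective k := by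
      intro a b hab
      apply hinj
      change v (k a) = v (k b)
      rw [hab]
    obtain ⟨w, y, hw, hy⟩ := hcc _ hinj
    refine ⟨w.map k, y, ?_, ?_⟩
    · have h1 : Tendsto k atTop atTop := by
        rw [← Nat.cofinite_eq_atTop]
        exact hkinj.tendsto_cofinite
      exact le_trans (Filter.map_mono hw) h1
    · exact hy

/-- splitting an infinite family of ultrafilters -/
theorem acc_split {T : Type} (u : ℕ → Ultrafilter T) (hu : Function.Injective u) (A : Set T)
    (hA : {n | A ∈ u n}.Infinite) : ∃ (n : ℕ) (D A' : Set T), D ∈ u n ∧ D ⊆ A ∧ A' ⊆ A ∧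
      Disjoint D A' ∧ {n | A' ∈ u n}.Infinite := by
  obtain ⟨a, ha, b, hb, hab⟩ := hA.nontrivial
  have hne : u a ≠ u b := fun h => hab (hu h)
  obtain ⟨B, hB1, hB2⟩ : ∃ B, B ∈ u a ∧ B ∉ u b := by
    by_contra hcon
    push Not at hcon
    apply hne
    have : (u b : Filter T) ≤ u a := fun B hB => hcon B hB
    exact (Ultrafilter.coe_le_coe.1 this).symm
  have hB2' : Bᶜ ∈ u b := Ultrafilter.compl_mem_iff_notMem.2 hB2
  by_cases h : {n | A ∩ B ∈ u n}.Infinite
  · refine ⟨b, A ∩ Bᶜ, A ∩ B, Filter.inter_mem hb hB2', inter_subset_left, inter_subset_left,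
      ?_, h⟩
    rw [Set.disjoint_left]
    rintro x ⟨_, h1⟩ ⟨_, h2⟩
    exact h1 h2
  · refine ⟨a, A ∩ B, A ∩ Bᶜ, Filter.inter_mem ha hB1, inter_subset_left, inter_subset_left,
      ?_, ?_⟩
    · rw [Set.disjoint_left]
      rintro x ⟨_, h1⟩ ⟨_, h2⟩
      exact h2 h1
    · intro hfin
      apply hA
      refine (Set.Finite.union (Set.not_infinite.1 h) hfin).subset ?_
      intro n hn
      rcases Ultrafilter.mem_or_compl_mem (u n) B with h1 | h1
      · exact Or.inl (Filter.inter_mem hn h1)
      · exact Or.inr (Filter.inter_mem hn h1)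

theorem acc_disjoint {T : Type} (u : ℕ → Ultrafilter T) (hu : Function.Injective u) :
    ∃ (ψ : ℕ → ℕ) (D : ℕ → Set T), (∀ n, D n ∈ u (ψ n)) ∧
      ∀ m n, m ≠ n → Disjoint (D m) (D n) := by
  choose! nn DD AA h1 h2 h3 h4 h5 using acc_split u hu
  let A : ℕ → Set T := fun n => Nat.rec Set.univ (fun _ A => AA A) n
  have hA : ∀ n, {k | A n ∈ u k}.Infinite := by
    intro n
    induction n with
    | zero =>
      have : {k | A 0 ∈ u k} = Set.univ := by
        ext k
        simp only [Set.mem_univ, iff_true]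
        exact Filter.univ_mem
      rw [this]
      exact Set.infinite_univ
    | succ n ih => exact h5 (A n) ih
  have hmono : ∀ m n, m ≤ n → A n ⊆ A m := by
    intro m n hmn
    induction n, hmn using Nat.le_induction with
    | base => exact Subset.rfl
    | succ n _ ih => exact Subset.trans (h3 (A n) (hA n)) ih
  refine ⟨fun n => nn (A n), fun n => DD (A n), fun n => h1 (A n) (hA n), ?_⟩
  have key : ∀ m n, m < n → Disjoint (DD (A m)) (DD (A n)) := by
    intro m n hmn
    refine Set.disjoint_of_subset_right ?_ (h4 (A m) (hA m))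
    exact Subset.trans (h2 (A n) (hA n)) (hmono (m + 1) n hmn)
  intro m n hmn
  rcases lt_or_gt_of_ne hmn with h | h
  · exact key m n h
  · exact (key n m h).symm

/-- almost disjoint family -/
def accC (z : ℕ → Bool) (k : ℕ) : ℕ := Encodable.encode ((List.range k).map z)

theorem accC_eq {z z' : ℕ → Bool} {k l : ℕ} (h : accC z k = accC z' l) :
    k = l ∧ ∀ i < k, z i = z' i := by
  have h1 := Encodable.encode_injective h
  have h2 : k = l := by
    have := congrArg List.length h1
    simpa using this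
  subst h2
  refine ⟨rfl, fun i hi => ?_⟩
  have h3 := List.map_eq_map_iff.1 h1
  exact h3 i (List.mem_range.2 hi)

theorem accC_inj (z : ℕ → Bool) : Function.Injective (accC z) := fun _ _ h => (accC_eq h).1

theorem accC_fin {z z' : ℕ → Bool} (h : z ≠ z') : {k | accC z k ∈ Set.range (accC z')}.Finite := by
  obtain ⟨i, hi⟩ := Function.ne_iff.1 h
  refine (Set.finite_Iic i).subset ?_
  rintro k ⟨l, hl⟩
  by_contra hk
  rw [Set.mem_Iic, not_le] at hk
  obtain ⟨_, h2⟩ := accC_eq hl.symm
  exact hi (h2 i hk)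

/-- ACC -/
theorem acc_pr {Y T : Type} [TopologicalSpace Y] [T2Space Y] (ι : T → Y)
    (hcc : ∀ v : ℕ → Y, Function.Injective v → ∃ (w : Ultrafilter ℕ) (y : Y),
      (w : Filter ℕ) ≤ atTop ∧ Tendsto v (w : Filter ℕ) (𝓝 y))
    (d : ℕ → Y × Ultrafilter T) (hd : Function.Injective d)
    (hl : ∀ n, Tendsto ι ((d n).2 : Filter T) (𝓝 (d n).1)) :
    ∃ e : (ℕ → Bool) → Y × Ultrafilter T, Function.Injective e ∧
      ∀ z, Tendsto ι ((e z).2 : Filter T) (𝓝 (e z).1) ∧ e z ∈ closure (Set.range d) := by
  have hu : Function.Injective (fun n => (d n).2) := by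
    intro a b hab
    change (d a).2 = (d b).2 at hab
    apply hd
    have h1 := hl a
    have h2 := hl b
    rw [hab] at h1
    have h3 := tendsto_nhds_unique h1 h2
    exact Prod.ext h3 hab
  obtain ⟨ψ, D, hD, hdis⟩ := acc_disjoint _ hu
  have hlim : ∀ z : ℕ → Bool, ∃ (w : Ultrafilter ℕ) (y : Y), (w : Filter ℕ) ≤ atTop ∧
      Tendsto (fun k => (d (ψ (accC z k))).1) (w : Filter ℕ) (𝓝 y) :=
    fun z => acc_ulim hcc _
  choose w y hw hy using hlim
  refine ⟨fun z => (y z, (w z).bind (fun k => (d (ψ (accC z k))).2)), ?_, ?_⟩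
  · intro z z' hzz
    by_contra hne
    have h1 : (w z).bind (fun k => (d (ψ (accC z k))).2) =
        (w z').bind (fun k => (d (ψ (accC z' k))).2) := congrArg Prod.snd hzz
    have key : ∀ z z' : ℕ → Bool, z ≠ z' → (⋃ k ∈ {k | accC z k ∉ Set.range (accC z')},
        D (accC z k)) ∈ (w z).bind (fun k => (d (ψ (accC z k))).2) := by
      intro z z' hne
      rw [acc_mem_bind]
      have h2 : {k | accC z k ∉ Set.range (accC z')} ∈ (w z : Filter ℕ) := by
        apply hw z
        rw [← Nat.cofinite_eq_atTop, Filter.mem_cofinite]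
        refine (accC_fin hne).subset ?_
        intro k hk
        by_contra hk2
        exact hk hk2
      refine Filter.mem_of_superset h2 ?_
      intro k hk
      refine Filter.mem_of_superset (hD (accC z k)) ?_
      exact Set.subset_biUnion_of_mem (u := fun k => D (accC z k)) hk
    have h2 := key z z' hne
    have h3 := key z' z (Ne.symm hne)
    rw [← h1] at h3
    have h4 := Filter.inter_mem h2 h3
    have h5 : (⋃ k ∈ {k | accC z k ∉ Set.range (accC z')}, D (accC z k)) ∩
        (⋃ k ∈ {k | accC z' k ∉ Set.range (accC z)}, D (accC z' k)) = ∅ := by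
      rw [Set.eq_empty_iff_forall_notMem]
      rintro t ⟨ht1, ht2⟩
      rw [Set.mem_iUnion₂] at ht1 ht2
      obtain ⟨k, hk, ht1⟩ := ht1
      obtain ⟨l, _, ht2⟩ := ht2
      have hkl : accC z k ≠ accC z' l := fun h => hk ⟨l, h.symm⟩
      exact Set.disjoint_left.1 (hdis _ _ hkl) ht1 ht2
    rw [h5] at h4
    exact Filter.empty_notMem ((w z).bind (fun k => (d (ψ (accC z k))).2) : Filter T) h4
  · intro z
    constructor
    · refine tendsto_nhds.2 fun V hV hyV => ?_
      change ι ⁻¹' V ∈ (w z).bind (fun k => (d (ψ (accC z k))).2)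
      rw [acc_mem_bind]
      have h1 : ∀ᶠ k in (w z : Filter ℕ), (d (ψ (accC z k))).1 ∈ V :=
        (hy z).eventually (hV.mem_nhds hyV)
      filter_upwards [h1] with k hk
      exact (hl (ψ (accC z k))) (hV.mem_nhds hk)
    · have h2 : Tendsto (fun k => (d (ψ (accC z k))).2) (w z : Filter ℕ)
          (𝓝 ((w z).bind (fun k => (d (ψ (accC z k))).2))) := by
        rw [TopologicalSpace.tendsto_nhds_generateFrom_iff]
        rintro _ ⟨A, rfl⟩ hA
        exact hA
      have h3 : Tendsto (fun k => d (ψ (accC z k))) (w z : Filter ℕ)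
          (𝓝 (y z, (w z).bind (fun k => (d (ψ (accC z k))).2))) :=
        (hy z).prodMk_nhds h2
      exact mem_closure_of_tendsto h3 (Filter.Eventually.of_forall fun k => ⟨_, rfl⟩)

end Pool.Agent.Lib_helper25.Stk
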