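import Pool.Agent.Lib_helper25.Stk.DefsY

set_option autoImplicit false

open Set Filter Topology Cardinal

namespace Pool.Agent.Lib_helper25.Stk

theorem CARD_dense_compl (x : ℕ → Bool) : Dense ({x}ᶜ : Set (ℕ → Bool)) := by
  rw [dense_iff_inter_open]
  rintro O hO ⟨y, hy⟩
  obtain ⟨m, hm⟩ := ag_basis hO hy
  by_cases hxy : y = x
  · refine ⟨Function.update y m (!y m), hm _ ?_, ?_⟩
    · intro i hi
      rw [Function.update_of_ne (by omega)]
    · intro h
      rw [Set.mem_singleton_iff, ← hxy] at h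
      have := congrFun h m
      rw [Function.update_self] at this
      cases hb : y m <;> rw [hb] at this <;> cases this
  · exact ⟨y, hy, hxy⟩

theorem CARD_countable_compl_residual {S : Set (ℕ → Bool)} (hS : S.Countable) :
    Sᶜ ∈ residual (ℕ → Bool) := by
  have h1 : Sᶜ = ⋂ x ∈ S, ({x}ᶜ : Set (ℕ → Bool)) := by
    ext y
    simp only [Set.mem_compl_iff, Set.mem_iInter, Set.mem_singleton_iff]
    constructor
    · rintro h x hx rfl
      exact h hx
    · intro h hy
      exact h y hy rfl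
  rw [h1, countable_bInter_mem hS]
  intro x _
  exact residual_of_dense_open isOpen_compl_singleton (CARD_dense_compl x)

theorem CARD_countable_meagre {S : Set (ℕ → Bool)} (hS : S.Countable) : IsMeagre S :=
  CARD_countable_compl_residual hS

theorem card_comeagre_pr {V M : Set (ℕ → Bool)} (hV : IsOpen V) (hne : V.Nonempty)
    (hM : IsMeagre M) : 𝔠 ≤ #(↥(V \ M)) := by
  obtain ⟨G, hGM, hG, hd⟩ := mem_residual.mp hM
  have hsub : V ∩ G ⊆ V \ M := fun x hx => ⟨hx.1, hGM hx.2⟩
  have hunc : ¬ (V ∩ G).Countable := by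
    intro hc
    have h1 : G ∩ (V ∩ G)ᶜ ∈ residual (ℕ → Bool) :=
      Filter.inter_mem (mem_residual.mpr ⟨G, Subset.rfl, hG, hd⟩)
        (CARD_countable_compl_residual hc)
    obtain ⟨x, hxV, hx⟩ := (dense_of_mem_residual h1).inter_open_nonempty V hV hne
    exact hx.2 ⟨hxV, hx.1⟩
  have hmeas : MeasurableSet (V ∩ G) := hV.measurableSet.inter hG.measurableSet
  have hsb : StandardBorelSpace ↥(V ∩ G) := hmeas.standardBorel
  have hunc' : ¬ Countable ↥(V ∩ G) := fun h => hunc (Set.countable_coe_iff.mp h)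
  have e : ↥(V ∩ G) ≃ (ℕ → Bool) :=
    (PolishSpace.measurableEquivNatBoolOfNotCountable hunc').toEquiv
  have h2 : #(↥(V ∩ G)) = 𝔠 := by
    rw [Cardinal.mk_congr e]
    simp
  rw [← h2]
  exact Cardinal.mk_le_mk_of_subset hsub

end Pool.Agent.Lib_helper25.Stk
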