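import Pool.Agent.Lib_helper25.Stk.Basic

set_option autoImplicit false

open Set Filter Topology Cardinal

namespace Pool.Agent.Lib_helper25.Stk

/-- removing a set of pairwise comparable points and finitely many cones keeps open -/
theorem core_mopen (s : ℕ) (W B : Set ℕ) (hW : MOpen W) (hs : s ∉ W)
    (hB : ∀ a ∈ B, ∀ b ∈ B, a ≠ b → Lt s a b ∨ Lt s b a) (T : Set ℕ) :
    MOpen ((W \ B) \ {u | ∃ t ∈ T, Lt s t u}) := by
  intro a ha
  have has : a ≠ s := by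
    rintro rfl
    exact hs ha.1.1
  obtain ⟨m, hm⟩ := hW a ha.1.1
  have hex : ∃ m', ∀ b ∈ B, b ≠ s → ann s b = ann s a → ¬ Ag (loc b) (loc a) m' := by
    by_cases hb : ∃ b ∈ B, b ≠ s ∧ ann s b = ann s a
    · obtain ⟨b, hbB, hbs, hba⟩ := hb
      have hne : b ≠ a := by
        rintro rfl
        exact ha.1.2 hbB
      refine ⟨ann a b + 1, fun c hc hcs hca h' => ?_⟩
      have hcb : c = b := by
        by_contra hcb
        rcases hB c hc b hbB hcb with h | h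
        · exact (lt_ann h).2.2.ne (hca.trans hba.symm)
        · exact (lt_ann h).2.2.ne (hba.trans hca.symm)
      subst hcb
      exact ann_ne hne (h' _ (Nat.lt_succ_self _))
    · push Not at hb
      exact ⟨0, fun b hbB hbs hba _ => hb b hbB hbs hba⟩
  obtain ⟨m', hm'⟩ := hex
  refine ⟨max m (max m' (ann s a + 1)), fun t' ht' => ?_⟩
  have h1 := hm t' (ag_mono ht' (le_max_left _ _))
  have h2 := ann_congr has (ag_mono ht' ((le_max_right _ _).trans (le_max_right _ _)))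
  have h3 : Ag (loc t') (loc a) m' := ag_mono ht' ((le_max_left _ _).trans (le_max_right _ _))
  refine ⟨⟨h1, fun hB' => hm' t' hB' h2.1 h2.2 h3⟩, ?_⟩
  rintro ⟨t, htT, ht⟩
  exact ha.2 ⟨t, htT, lt_congr ht has h2.2.symm⟩

/-- CORE -/
theorem core_pr (s : ℕ) (f : ℕ → Filter ℕ) (hf : ∀ n, (f n).NeBot)
    (dec : ∀ n t, {u | Lt s t u} ∈ f n ∨ {u | Lt s t u}ᶜ ∈ f n)
    (stab : ∀ t, (∀ᶠ n in atTop, {u | Lt s t u} ∈ f n) ∨
      (∀ᶠ n in atTop, {u | Lt s t u} ∉ f n))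
    (hb : ∀ n, {t | ∀ᶠ m in atTop, {u | Lt s t u} ∈ f m}ᶜ ∈ f n)
    (W : ℕ → Set ℕ) (hW : ∀ n, MOpen (W n)) (hWf : ∀ n, W n ∈ f n) (hs : ∀ n, s ∉ W n)
    (hc : ∀ n q, Ch s q → ∃ i, q i ∉ W n) :
    ∃ W' : ℕ → Set ℕ, (∀ n, W' n ⊆ W n) ∧ (∀ n, W' n ∈ f n) ∧ Small s (⋃ n, W' n) := by
  set B : Set ℕ := {t | ∀ᶠ m in atTop, {u | Lt s t u} ∈ f m} with hBdef
  have hB : ∀ a ∈ B, ∀ b ∈ B, a ≠ b → Lt s a b ∨ Lt s b a := by
    intro a ha b hb' hab
    obtain ⟨m, hm1, hm2⟩ := ((show ∀ᶠ m in atTop, {u | Lt s a u} ∈ f m from ha).and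
      (show ∀ᶠ m in atTop, {u | Lt s b u} ∈ f m from hb')).exists
    haveI := hf m
    obtain ⟨u, hu1, hu2⟩ := Filter.nonempty_of_mem (Filter.inter_mem hm1 hm2)
    rcases lt_comp hu1 hu2 with h | h
    · exact (hab h).elim
    · exact h
  let T : ℕ → Set ℕ := fun n => {t | t < n ∧ {u | Lt s t u}ᶜ ∈ f n}
  refine ⟨fun n => (W n \ B) \ {u | ∃ t ∈ T n, Lt s t u}, fun n u hu => hu.1.1, fun n => ?_, ?_⟩
  · have h1 : {u | ∃ t ∈ T n, Lt s t u}ᶜ ∈ f n := by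
      have hfin : (T n).Finite := (Set.finite_lt_nat n).subset fun t ht => ht.1
      have : {u | ∃ t ∈ T n, Lt s t u}ᶜ = ⋂ t ∈ T n, {u | Lt s t u}ᶜ := by
        ext u
        simp
      rw [this]
      exact (Filter.biInter_mem hfin).2 fun t ht => ht.2
    exact Filter.inter_mem (Filter.inter_mem (hWf n) (hb n)) h1
  · refine ⟨⋃ n, (W n \ B) \ {u | ∃ t ∈ T n, Lt s t u}, mopen_iUnion fun n =>
      core_mopen s (W n) B (hW n) (hs n) hB (T n), subset_rfl, ?_, ?_⟩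
    · intro h
      obtain ⟨n, hn⟩ := Set.mem_iUnion.1 h
      exact hs n hn.1.1
    · intro q hq
      by_contra hno
      push Not at hno
      have h0 : q 0 ∉ B := by
        obtain ⟨n, hn⟩ := Set.mem_iUnion.1 (hno 0)
        exact hn.1.2
      have h1 : ∀ᶠ n in atTop, {u | Lt s (q 0) u} ∉ f n := (stab (q 0)).resolve_left h0
      obtain ⟨N, hN⟩ := Filter.eventually_atTop.1 (h1.and (eventually_gt_atTop (q 0)))
      have h2 : ∀ i, ∃ n < N, q (i + 1) ∈ W n := by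
        intro i
        obtain ⟨n, hn⟩ := Set.mem_iUnion.1 (hno (i + 1))
        refine ⟨n, ?_, hn.1.1⟩
        by_contra hnN
        obtain ⟨h3, h4⟩ := hN n (not_lt.1 hnN)
        exact hn.2 ⟨q 0, ⟨h4, (dec n (q 0)).resolve_left h3⟩, ch_lt hq (Nat.succ_pos i)⟩
      have h3 : Small s (⋃ n ∈ {n | n < N}, W n) :=
        small_biUnion (Set.finite_lt_nat N) fun n _ => ⟨W n, hW n, subset_rfl, hs n, hc n⟩
      have h4 := small_ch h3 (ch_sub hq (φ := fun n => n + 1)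
        (fun a b h => Nat.add_lt_add_right h 1))
      obtain ⟨n, hn⟩ := h4.exists
      apply hn
      obtain ⟨k, hk, hk'⟩ := h2 n
      exact Set.mem_biUnion hk hk'

end Pool.Agent.Lib_helper25.Stk
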