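import Pool.Agent.Lib_helper25.Stk.DefsY

set_option autoImplicit false

open Set Filter Topology Cardinal

namespace Pool.Agent.Lib_helper25.Stk

section
variable {G : Type} (D : Fam G)

/-- GOOD1 -/
theorem good_pure_pr (t : ℕ ⊕ G) : Good D {t} := by
  cases t with
  | inl k =>
    refine ⟨?_, ⟨fun _ => 0, ?_⟩, ?_⟩
    · have : {ξ : G | Sum.inr ξ ∈ ({Sum.inl k} : Set (ℕ ⊕ G))} = ∅ := by
        ext ξ; simp
      rw [this]; exact Set.countable_empty
    · refine cd_finite ((Set.finite_singleton k).subset ?_)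
      rintro a (ha | ⟨ξ, b, n, hξ, _, _⟩)
      · have : (Sum.inl a : ℕ ⊕ G) = Sum.inl k := ha
        exact Sum.inl_injective this
      · have : (Sum.inr ξ : ℕ ⊕ G) = Sum.inl k := hξ
        exact absurd this (by simp)
    · intro ξ b
      refine Set.Subsingleton.finite ?_
      intro m hm n hn
      have h1 : (Sum.inl (D.Z ξ b m) : ℕ ⊕ G) = Sum.inl k := hm
      have h2 : (Sum.inl (D.Z ξ b n) : ℕ ⊕ G) = Sum.inl k := hn
      exact D.hZ ξ b (Sum.inl_injective (h1.trans h2.symm))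
  | inr ξ₀ =>
    refine ⟨?_, ⟨fun _ => 0, ?_⟩, ?_⟩
    · have : {ξ : G | Sum.inr ξ ∈ ({Sum.inr ξ₀} : Set (ℕ ⊕ G))} = {ξ₀} := by
        ext ξ; simp
      rw [this]; exact Set.countable_singleton _
    · have h1 := cd_seq (D.hlim ξ₀ true) (D.hβ ξ₀ true)
      have h2 := cd_seq (D.hlim ξ₀ false) (D.hβ ξ₀ false)
      refine cd_mono (cd_union h1 h2) ?_
      rintro a (ha | ⟨ξ, b, n, hξ, _, hn⟩)
      · have : (Sum.inl a : ℕ ⊕ G) = Sum.inr ξ₀ := ha
        exact absurd this (by simp)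
      · have : (Sum.inr ξ : ℕ ⊕ G) = Sum.inr ξ₀ := hξ
        have hξ' : ξ = ξ₀ := Sum.inr_injective this
        subst hξ'
        cases b with
        | true => exact Or.inl ⟨n, hn⟩
        | false => exact Or.inr ⟨n, hn⟩
    · intro ξ b
      have : {n | Sum.inl (D.Z ξ b n) ∈ ({Sum.inr ξ₀} : Set (ℕ ⊕ G))} = ∅ := by
        ext n; simp
      rw [this]; exact Set.finite_empty

end

end Pool.Agent.Lib_helper25.Stk
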