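import Pool.Agent.Lib_helper25.Stk.DefsY

/-! Block LEMD. -/

set_option autoImplicit false

open Set Filter Topology Cardinal

namespace Pool.Agent.Lib_helper25.Stk

/-- elements eventually below `G` at `x` -/
def lemdPhi (r : ℕ → ℕ → Prop) (G : Set ℕ) (x : ℕ → Bool) (a : ℕ) : Prop :=
  ∃ m, ∀ z ∈ G, Ag (loc z) x m → r a z

theorem lemd_step {r : ℕ → ℕ → Prop} (hr : StrictLin r) {G : Set ℕ} {x : ℕ → Bool}
    (hx : x ∉ Set.range loc)
    (hbad : ¬ ∃ z : ℕ → ℕ, (∀ n, z n ∈ G) ∧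
      (∀ n, r (z (n + 1)) (z n)) ∧ Tendsto (fun n => loc (z n)) atTop (𝓝 x)) :
    ∃ c : Option ℕ, (∀ a, c = some a → ¬ lemdPhi r G x a) ∧ ∃ m, ∀ z ∈ G, Ag (loc z) x m →
      lemdPhi r G x z ∨ ∃ a, c = some a ∧ r a z := by
  by_contra hcon
  push Not at hcon
  apply hbad
  have hnot : ∀ t : ℕ, ∃ m, ¬ Ag (loc t) x m := by
    intro t
    by_contra h
    push Not at h
    apply hx
    refine ⟨t, ?_⟩
    funext i
    exact h (i + 1) i (Nat.lt_succ_self i)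
  have h0 : ∃ z, z ∈ G ∧ ¬ lemdPhi r G x z := by
    obtain ⟨z, hz, _, hz2, _⟩ := hcon none (by simp) 0
    exact ⟨z, hz, hz2⟩
  have hs : ∀ (a : ℕ) (n : ℕ), a ∈ G ∧ ¬ lemdPhi r G x a →
      ∃ z, (z ∈ G ∧ ¬ lemdPhi r G x z) ∧ r z a ∧ Ag (loc z) x n := by
    intro a n ⟨ha, ha2⟩
    obtain ⟨m, hm⟩ := hnot a
    obtain ⟨z, hz, hz1, hz2, hz3⟩ := hcon (some a) (by
      intro b hb
      rw [Option.some.injEq] at hb
      rw [← hb]; exact ha2) (max m n)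
    refine ⟨z, ⟨hz, hz2⟩, ?_, ag_mono hz1 (le_max_right _ _)⟩
    have hne : z ≠ a := by
      intro h
      apply hm
      rw [← h]
      exact ag_mono hz1 (le_max_left _ _)
    rcases hr.total z a hne with h | h
    · exact h
    · exact absurd h (hz3 a rfl)
  choose! f hf1 hf2 hf3 using hs
  obtain ⟨z0, hz0⟩ := h0
  let q : ℕ → ℕ := fun n => Nat.rec z0 (fun n z => f z n) n
  have hq : ∀ n, q n ∈ G ∧ ¬ lemdPhi r G x (q n) := by
    intro n
    induction n with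
    | zero => exact hz0
    | succ n ih => exact hf1 (q n) n ih
  refine ⟨q, fun n => (hq n).1, fun n => hf2 (q n) n (hq n), ?_⟩
  rw [tendsto_ag]
  intro m
  filter_upwards [eventually_ge_atTop (m + 1)] with n hn
  obtain ⟨k, rfl⟩ : ∃ k, n = k + 1 := ⟨n - 1, by omega⟩
  exact ag_mono (hf3 (q k) k (hq k)) (by omega)

/-- the pieces of the bad set -/
def lemdN (r : ℕ → ℕ → Prop) (G : Set ℕ) (V : Set (ℕ → Bool)) (c : Option ℕ) (m s : ℕ) :
    Set (ℕ → Bool) :=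
  {x | x ∈ V ∧ Ag x (loc s) m ∧ (∀ a, c = some a → ¬ lemdPhi r G x a) ∧
    ∀ z ∈ G, Ag (loc z) (loc s) m → lemdPhi r G x z ∨ ∃ a, c = some a ∧ r a z}

theorem lemd_nowhere {r : ℕ → ℕ → Prop} (hr : StrictLin r) (hn : NoMono r) {G : Set ℕ}
    {V : Set (ℕ → Bool)} (_hV : IsOpen V) (hG : V ⊆ closure (loc '' G)) (c : Option ℕ) (m s : ℕ) :
    IsNowhereDense (lemdN r G V c m s) := by
  rw [IsNowhereDense]
  by_contra hne
  rw [← ne_eq, ← nonempty_iff_ne_empty] at hne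
  set N1 := lemdN r G V c m s with hN1
  -- open set
  obtain ⟨V2, hV2o, hV2n, hV2c, hV2B⟩ : ∃ V2 : Set (ℕ → Bool), IsOpen V2 ∧ V2.Nonempty ∧
      V2 ⊆ closure N1 ∧ ∀ y ∈ V2, Ag y (loc s) m := by
    obtain ⟨y, hy⟩ := hne
    have h1 : y ∈ closure N1 := interior_subset hy
    obtain ⟨x, hx1, hx2⟩ := mem_closure_iff.1 h1 _ isOpen_interior hy
    refine ⟨interior (closure N1) ∩ {y | Ag y (loc s) m},
      isOpen_interior.inter (ag_open (loc s) m), ⟨x, hx1, hx2.2.1⟩,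
      fun y hy => interior_subset hy.1, fun y hy => hy.2⟩
  -- the set H
  have key : ∀ O : Set (ℕ → Bool), IsOpen O → O.Nonempty → O ⊆ V2 → ∀ h : Option ℕ,
      (∀ a, h = some a → a ∈ G ∧ Ag (loc a) (loc s) m ∧ ∀ b, c = some b → ¬ r b a) →
      ∃ z, (z ∈ G ∧ Ag (loc z) (loc s) m ∧ ∀ b, c = some b → ¬ r b z) ∧ loc z ∈ O ∧
        ∀ a, h = some a → r a z := by
    intro O hO hOn hOV h hh
    obtain ⟨y, hy⟩ := hOn
    obtain ⟨x, hxO, hxN⟩ := mem_closure_iff.1 (hV2c (hOV hy)) _ hO hy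
    obtain ⟨m1, hm1⟩ := ag_basis hO hxO
    obtain ⟨m2, hm2⟩ : ∃ m2, ∀ z ∈ G, Ag (loc z) x m2 → ∀ a, h = some a → r a z := by
      cases h with
      | none => exact ⟨0, fun z _ _ a ha => by simp at ha⟩
      | some a =>
        obtain ⟨ha1, ha2, ha3⟩ := hh a rfl
        rcases hxN.2.2.2 a ha1 ha2 with h4 | ⟨b, hb, hb2⟩
        · obtain ⟨m2, hm2⟩ := h4
          refine ⟨m2, fun z hz hz2 a' ha' => ?_⟩
          rw [Option.some.injEq] at ha'
          rw [← ha']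
          exact hm2 z hz hz2
        · exact absurd hb2 (ha3 b hb)
    have hz : ∃ z ∈ G, Ag (loc z) x (max m (max m1 m2)) ∧ ∀ b, c = some b → ¬ r b z := by
      cases c with
      | none =>
        have h5 := hG hxN.1
        obtain ⟨w, hw1, z, hz, rfl⟩ := mem_closure_iff.1 h5 _ (ag_open x (max m (max m1 m2)))
          (ag_refl x _)
        exact ⟨z, hz, hw1, fun b hb => by simp at hb⟩
      | some b =>
        have h5 := hxN.2.2.1 b rfl
        unfold lemdPhi at h5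
        push Not at h5
        obtain ⟨z, hz, hz1, hz2⟩ := h5 (max m (max m1 m2))
        refine ⟨z, hz, hz1, fun b' hb' => ?_⟩
        rw [Option.some.injEq] at hb'
        rw [← hb']
        exact hz2
    obtain ⟨z, hzG, hz1, hz2⟩ := hz
    refine ⟨z, ⟨hzG, ag_trans (ag_mono hz1 (le_max_left _ _)) hxN.2.1, hz2⟩,
      hm1 _ (ag_mono hz1 (le_trans (le_max_left _ _) (le_max_right _ _))),
      hm2 z hzG (ag_mono hz1 (le_trans (le_max_right _ _) (le_max_right _ _)))⟩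
  obtain ⟨s0, hs0, hs0V, _⟩ := key V2 hV2o hV2n Subset.rfl none (by simp)
  obtain ⟨M0, hM0⟩ := ag_basis hV2o hs0V
  -- step
  have hstep : ∀ a, (a ∈ G ∧ Ag (loc a) (loc s) m ∧ ∀ b, c = some b → ¬ r b a) ∧ a ≠ s0 →
      ∃ z, ((z ∈ G ∧ Ag (loc z) (loc s) m ∧ ∀ b, c = some b → ¬ r b z) ∧ z ≠ s0) ∧
        r a z ∧ Lt s0 a z := by
    intro a ⟨ha, hane⟩
    obtain ⟨j, hj, hk⟩ := kap_inf a (max M0 (ann s0 a + 1))
    let x : ℕ → Bool := Function.update (loc s0) j (! loc s0 j)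
    have hx1 : Ag x (loc s0) j := by
      intro i hi
      exact Function.update_of_ne (by omega) _ _
    have hx2 : x j ≠ loc s0 j := by
      simp [x]
    obtain ⟨z, hz, hzO, hzr⟩ := key {y | Ag y x (j + 1)} (ag_open x (j + 1)) ⟨x, ag_refl x _⟩
      (by
        intro y hy
        apply hM0
        have h6 : Ag y x j := ag_mono hy (Nat.le_succ j)
        exact ag_mono (ag_trans h6 hx1) (le_trans (le_max_left _ _) hj))
      (some a) (by
        intro a' ha'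
        rw [Option.some.injEq] at ha'
        rw [← ha']
        exact ha)
    obtain ⟨h7, h8⟩ := ann_eq_of hx1 hx2 hzO
    refine ⟨z, ⟨hz, h7⟩, hzr a rfl, lt_step hane h7 (by rw [h8, hk]) ?_⟩
    rw [h8]
    exact lt_of_lt_of_le (Nat.lt_succ_self _) (le_trans (le_max_right _ _) hj)
  choose! f hf1 hf2 hf3 using hstep
  obtain ⟨q0, hq0, _, hq0r⟩ := key V2 hV2o hV2n Subset.rfl (some s0) (by
    intro a ha
    rw [Option.some.injEq] at ha
    rw [← ha]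
    exact hs0)
  have hr0 := hq0r s0 rfl
  have hq0ne : q0 ≠ s0 := by
    intro h
    rw [h] at hr0
    exact hr.irrefl _ hr0
  let q : ℕ → ℕ := fun n => Nat.rec q0 (fun _ z => f z) n
  have hq : ∀ n, (q n ∈ G ∧ Ag (loc (q n)) (loc s) m ∧ ∀ b, c = some b → ¬ r b (q n)) ∧
      q n ≠ s0 := by
    intro n
    induction n with
    | zero => exact ⟨hq0, hq0ne⟩
    | succ n ih => exact hf1 (q n) ih
  have hch : Ch s0 q := fun n => hf3 (q n) (hq n)
  exact (hn s0 q hch).1 ⟨hr0, fun n => hf2 (q n) (hq n)⟩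

/-- LEMD -/
theorem lemD_pr {r : ℕ → ℕ → Prop} (hr : StrictLin r) (hn : NoMono r) {G : Set ℕ}
    {V : Set (ℕ → Bool)} (hV : IsOpen V) (hG : V ⊆ closure (loc '' G)) :
    IsMeagre {x | x ∈ V ∧ x ∉ Set.range loc ∧ ¬ ∃ z : ℕ → ℕ, (∀ n, z n ∈ G) ∧
      (∀ n, r (z (n + 1)) (z n)) ∧ Tendsto (fun n => loc (z n)) atTop (𝓝 x)} := by
  have h1 : IsMeagre (⋃ c : Option ℕ, ⋃ m : ℕ, ⋃ s : ℕ, lemdN r G V c m s) :=
    isMeagre_iUnion fun c => isMeagre_iUnion fun m => isMeagre_iUnion fun s =>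
      (lemd_nowhere hr hn hV hG c m s).isMeagre
  refine h1.mono ?_
  rintro x ⟨hxV, hx, hbad⟩
  obtain ⟨c, hc, m, hm⟩ := lemd_step hr hx hbad
  obtain ⟨s, hs⟩ := loc_dense x m
  rw [Set.mem_iUnion]
  refine ⟨c, Set.mem_iUnion.2 ⟨m, Set.mem_iUnion.2 ⟨s, hxV, ag_symm hs, hc, ?_⟩⟩⟩
  intro z hz hz2
  exact hm z hz (ag_trans hz2 hs)

end Pool.Agent.Lib_helper25.Stk
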