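import Pool.Agent.Lib_helper25.Stk.DefsY

/-!
Stk, block LEME.
-/

set_option autoImplicit false

open Set Filter Topology Cardinal

namespace Pool.Agent.Lib_helper25.Stk

theorem lemE_dense : closure (Set.range loc) = Set.univ := by
  rw [← dense_iff_closure_eq, dense_iff_inter_open]
  intro U hU hne
  obtain ⟨x, hx⟩ := hne
  obtain ⟨m, hm⟩ := ag_basis hU hx
  obtain ⟨t, ht⟩ := loc_dense x m
  exact ⟨loc t, hm _ ht, t, rfl⟩

/-- the annulus `j` around `s` -/
def lemE_ann (s j : ℕ) : Set (ℕ → Bool) := {y | Ag y (loc s) j ∧ y j ≠ loc s j}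

theorem lemE_ann_open (s j : ℕ) : IsOpen (lemE_ann s j) := by
  refine IsOpen.inter (ag_open (loc s) j) ?_
  have hc : Continuous (fun y : ℕ → Bool => y j) := continuous_apply j
  exact hc.isOpen_preimage {b : Bool | b ≠ loc s j} (isOpen_discrete _)

theorem lemE_ann_nonempty (s j : ℕ) : (lemE_ann s j).Nonempty := by
  classical
  refine ⟨Function.update (loc s) j (!(loc s j)), fun i hi => ?_, ?_⟩
  · rw [Function.update_of_ne hi.ne]
  · rw [Function.update_self]
    simp

theorem lemE_half {r : ℕ → ℕ → Prop} (hr : StrictLin r)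
    (hn : ∀ s q, Ch s q → ¬ (r s (q 0) ∧ ∀ n, r (q n) (q (n + 1)))) {R : Set ℕ}
    (hR : ∀ c ∈ R, interior (closure (loc '' {z | r z c})) = ∅) :
    interior (closure (loc '' R)) = ∅ := by
  classical
  by_contra hcon
  set V := interior (closure (loc '' R)) with hV
  have hVo : IsOpen V := isOpen_interior
  have hVne : V.Nonempty := Set.nonempty_iff_ne_empty.2 hcon
  have hVR : V ⊆ closure (loc '' R) := interior_subset
  -- meeting open sets
  have hmeet : ∀ O : Set (ℕ → Bool), IsOpen O → O.Nonempty → O ⊆ V → ∃ z ∈ R, loc z ∈ O := by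
    intro O hO hne hOV
    obtain ⟨x, hx⟩ := hne
    obtain ⟨y, hyO, z, hzR, rfl⟩ := mem_closure_iff.1 (hVR (hOV hx)) O hO hx
    exact ⟨z, hzR, hyO⟩
  have hA : ∀ c ∈ R, ∀ O : Set (ℕ → Bool), IsOpen O → O.Nonempty → O ⊆ V → loc c ∉ O →
      ∃ z ∈ R, loc z ∈ O ∧ r c z := by
    intro c hc O hO hne hOV hcO
    have h1 : (O \ closure (loc '' {z | r z c})).Nonempty := by
      by_contra hemp
      rw [Set.not_nonempty_iff_eq_empty, Set.sdiff_eq_empty] at hemp
      have h2 := interior_maximal hemp hO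
      rw [hR c hc] at h2
      obtain ⟨x, hx⟩ := hne
      exact h2 hx
    obtain ⟨z, hzR, hz⟩ := hmeet _ (hO.sdiff isClosed_closure) h1
      (Set.sdiff_subset.trans hOV)
    refine ⟨z, hzR, hz.1, ?_⟩
    have hzc : c ≠ z := by
      rintro rfl
      exact hcO hz.1
    rcases hr.total c z hzc with h | h
    · exact h
    · have h2 : loc z ∈ loc '' {z | r z c} := Set.mem_image_of_mem loc h
      exact absurd (subset_closure h2) hz.2
  obtain ⟨s, hsR, hsV⟩ := hmeet V hVo hVne subset_rfl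
  obtain ⟨m, hm⟩ := ag_basis hVo hsV
  have hannV : ∀ j, m ≤ j → lemE_ann s j ⊆ V := fun j hj y hy => hm y (ag_mono hy.1 hj)
  have hann : ∀ j z, loc z ∈ lemE_ann s j → z ≠ s ∧ ann s z = j := fun j z hz =>
    ann_eq_of hz.1 hz.2 (ag_refl _ _)
  -- the first point
  obtain ⟨q₀, hq₀R, hq₀, hsq₀⟩ := hA s hsR (lemE_ann s m) (lemE_ann_open s m)
    (lemE_ann_nonempty s m) (hannV m le_rfl) (fun h => h.2 rfl)
  -- the step
  have step : ∀ q : {q : ℕ // q ∈ R ∧ q ≠ s}, ∃ q' : {q : ℕ // q ∈ R ∧ q ≠ s},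
      Lt s q.1 q'.1 ∧ r q.1 q'.1 := by
    rintro ⟨q, hqR, hqs⟩
    obtain ⟨j, hj, hkj⟩ := kap_inf q (max m (ann s q + 1))
    have hj1 : m ≤ j := (le_max_left _ _).trans hj
    have hj2 : ann s q < j := (Nat.lt_succ_self _).trans_le ((le_max_right _ _).trans hj)
    obtain ⟨z, hzR, hz, hqz⟩ := hA q hqR (lemE_ann s j) (lemE_ann_open s j)
      (lemE_ann_nonempty s j) (hannV j hj1) (fun h => hj2.ne (hann j q h).2)
    obtain ⟨hzs, hzj⟩ := hann j z hz
    refine ⟨⟨z, hzR, hzs⟩, lt_step hqs hzs ?_ ?_, hqz⟩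
    · rw [hzj, hkj]
    · rw [hzj]
      exact hj2
  choose g hg using step
  let q : ℕ → {q : ℕ // q ∈ R ∧ q ≠ s} := fun n =>
    g^[n] ⟨q₀, hq₀R, (hann m q₀ hq₀).1⟩
  have hq : ∀ n, q (n + 1) = g (q n) := fun n => Function.iterate_succ_apply' g n _
  refine hn s (fun n => (q n).1) (fun n => ?_) ⟨hsq₀, fun n => ?_⟩
  · show Lt s (q n).1 (q (n + 1)).1
    rw [hq n]
    exact (hg (q n)).1
  · show r (q n).1 (q (n + 1)).1
    rw [hq n]
    exact (hg (q n)).2

/-- LEME -/
theorem lemE_pr {r : ℕ → ℕ → Prop} (hr : StrictLin r) (hn : NoMono r) :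
    ∃ c, ∃ V V' : Set (ℕ → Bool), IsOpen V ∧ V.Nonempty ∧ IsOpen V' ∧ V'.Nonempty ∧
      V ⊆ closure (loc '' {z | r z c}) ∧ V' ⊆ closure (loc '' {z | r c z}) := by
  by_contra hcon
  have hc : ∀ c, interior (closure (loc '' {z | r z c})) = ∅ ∨
      interior (closure (loc '' {z | r c z})) = ∅ := by
    intro c
    by_contra hc
    rw [not_or] at hc
    exact hcon ⟨c, interior (closure (loc '' {z | r z c})),
      interior (closure (loc '' {z | r c z})), isOpen_interior,
      Set.nonempty_iff_ne_empty.2 hc.1, isOpen_interior, Set.nonempty_iff_ne_empty.2 hc.2,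
      interior_subset, interior_subset⟩
  set R : Set ℕ := {c | interior (closure (loc '' {z | r z c})) = ∅} with hR
  have h1 : interior (closure (loc '' R)) = ∅ :=
    lemE_half hr (fun s q hq => (hn s q hq).1) (fun c hc => hc)
  have hr' : StrictLin (fun a b => r b a) :=
    ⟨fun a => hr.irrefl a, fun a b c hab hbc => hr.trans c b a hbc hab,
      fun a b hab => hr.total b a hab.symm⟩
  have h2 : interior (closure (loc '' Rᶜ)) = ∅ := by
    refine lemE_half hr' (fun s q hq => (hn s q hq).2) (fun c hcR => ?_)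
    rcases hc c with h | h
    · exact absurd h hcR
    · exact h
  have h3 : closure (loc '' R) ∪ closure (loc '' Rᶜ) = Set.univ := by
    rw [← closure_union, ← Set.image_union, Set.union_compl_self, Set.image_univ, lemE_dense]
  have h4 := interior_union_isClosed_of_interior_empty (isClosed_closure (s := loc '' R)) h2
  rw [h3, h1, interior_univ] at h4
  exact Set.empty_ne_univ h4.symm

end Pool.Agent.Lib_helper25.Stk
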