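import Pool.Agent.Lib_helper25.Stk.DefsY

/-!
Stk, block LIM.
-/

set_option autoImplicit false

open Set Filter Topology Cardinal

namespace Pool.Agent.Lib_helper25.Stk

section
variable {G : Type} (D : Fam G)

/-- LIM -/
theorem lim_pr (v : ℕ → Yt D) (w : Ultrafilter ℕ) (S : Set (ℕ ⊕ G)) (hS : Good D S)
    (h : ∀ᶠ n in (w : Filter ℕ), S ∈ (v n).1) :
    ∃ y, Tendsto v (w : Filter ℕ) (𝓝 y) := by
  have hmem : ∀ U : Set (ℕ ⊕ G), U ∈ w.bind (fun n => (v n).1) ↔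
      ∀ᶠ n in (w : Filter ℕ), U ∈ (v n).1 := fun U => Iff.rfl
  refine ⟨⟨w.bind (fun n => (v n).1), S, (hmem S).2 h, hS⟩, ?_⟩
  exact (tendsto_yt D _ _ _).2 (fun U _ hUy => (hmem U).1 hUy)

end

end Pool.Agent.Lib_helper25.Stk
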