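import Pool.Agent.Lib_helper25.Stk.DefsY

set_option autoImplicit false

open Set Filter Topology Cardinal

namespace Pool.Agent.Lib_helper25.Stk

theorem sdr_pr {I J : Type} (hI : #I ≤ 𝔠) (P : I → Set J) (hP : ∀ i, 𝔠 ≤ #(↥(P i))) :
    ∃ g : I → J, Function.Injective g ∧ ∀ i, g i ∈ P i := by
  classical
  rcases isEmpty_or_nonempty I with hI0 | ⟨⟨i₀⟩⟩
  · exact ⟨fun i => (hI0.false i).elim, fun i => (hI0.false i).elim, fun i => (hI0.false i).elim⟩
  have hJ : Nonempty J := by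
    have h1 : (P i₀).Nonempty := by
      rw [← Set.nonempty_coe_sort, ← Cardinal.mk_ne_zero_iff]
      intro h0
      have := hP i₀
      rw [h0] at this
      exact absurd this (not_le.mpr Cardinal.continuum_pos)
    exact ⟨h1.some⟩
  obtain ⟨r, hr, hord⟩ := Cardinal.exists_ord_eq I
  have hwf : WellFounded r := hr.wf
  let F : ∀ i, (∀ j, r j i → J) → J := fun i ih =>
    if h : (P i \ {x | ∃ j hj, ih j hj = x}).Nonempty then h.some else Classical.choice hJ
  let g : I → J := hwf.fix F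
  have hg : ∀ i, g i = F i (fun j _ => g j) := fun i => hwf.fix_eq F i
  have hne : ∀ i, (P i \ {x | ∃ j, ∃ _ : r j i, g j = x}).Nonempty := by
    intro i
    by_contra hc
    rw [Set.not_nonempty_iff_eq_empty, Set.sdiff_eq_empty] at hc
    have h1 : #(↥(P i)) ≤ #(↥{x | ∃ j, ∃ _ : r j i, g j = x}) := Cardinal.mk_le_mk_of_subset hc
    have h2 : #(↥{x | ∃ j, ∃ _ : r j i, g j = x}) ≤ #{j // r j i} := by
      refine Cardinal.mk_le_of_surjective (f := fun j : {j // r j i} =>
        (⟨g j.1, j.1, j.2, rfl⟩ : ↥{x | ∃ j, ∃ _ : r j i, g j = x})) ?_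
      rintro ⟨x, j, hj, rfl⟩
      exact ⟨⟨j, hj⟩, rfl⟩
    have h3 : #{j // r j i} < #I := by
      have := Cardinal.card_typein_lt i hord
      rwa [Ordinal.card_typein] at this
    exact absurd ((hP i).trans (h1.trans h2)) (not_le.mpr (h3.trans_le hI))
  have hg2 : ∀ i, g i ∈ P i \ {x | ∃ j, ∃ _ : r j i, g j = x} := by
    intro i
    rw [hg i]
    simp only [F]
    rw [dif_pos (hne i)]
    exact (hne i).some_mem
  refine ⟨g, ?_, fun i => (hg2 i).1⟩
  intro i j hij
  rcases trichotomous_of r i j with h | h | h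
  · exact absurd ⟨i, h, hij⟩ (hg2 j).2
  · exact h
  · exact absurd ⟨j, h, hij.symm⟩ (hg2 i).2

theorem card_GG_pr : #GG ≤ 𝔠 := by
  have h1 : #GG ≤ #(ℕ → ℕ → Prop) := Cardinal.mk_subtype_le _
  refine h1.trans ?_
  simp

end Pool.Agent.Lib_helper25.Stk
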