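import Pool.Agent.Lib_helper25.Stk.DefsY

set_option autoImplicit false

open Set Filter Topology Cardinal

namespace Pool.Agent.Lib_helper25.Stk

/-- SUB -/
theorem sub_stable_pr (f : ℕ → Filter ℕ) (p : ℕ → ℕ → Bool)
    (hp : ∀ n, Tendsto loc (f n) (𝓝 (p n))) :
    ∃ φ : ℕ → ℕ, StrictMono φ ∧ ∃ x, (∀ n, {t | Ag (loc t) x n} ∈ f (φ n)) ∧
      ∀ s t, (∀ᶠ n in atTop, {u | Lt s t u} ∈ f (φ n)) ∨
        (∀ᶠ n in atTop, {u | Lt s t u} ∉ f (φ n)) := by
  classical
  obtain ⟨a, φ₀, hφ₀, hlim⟩ := CompactSpace.tendsto_subseq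
    (X := (ℕ → Bool) × (ℕ → ℕ → Bool))
    (fun n => (p n, fun s t => decide ({u | Lt s t u} ∈ f n)))
  have h1 : Tendsto (fun n => p (φ₀ n)) atTop (𝓝 a.1) :=
    (continuous_fst.tendsto a).comp hlim
  have h2 : ∀ s t, Tendsto (fun n => decide ({u | Lt s t u} ∈ f (φ₀ n))) atTop (𝓝 (a.2 s t)) := by
    intro s t
    have hc : Continuous (fun b : (ℕ → Bool) × (ℕ → ℕ → Bool) => b.2 s t) :=
      (continuous_apply t).comp ((continuous_apply s).comp continuous_snd)
    exact (hc.tendsto a).comp hlim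
  have h3 : ∀ m, ∀ᶠ k in atTop, Ag (p (φ₀ k)) a.1 m := fun m => tendsto_ag.mp h1 m
  obtain ⟨ψ, hψ, hψ'⟩ := Filter.extraction_forall_of_eventually h3
  refine ⟨fun n => φ₀ (ψ n), hφ₀.comp hψ, a.1, ?_, ?_⟩
  · intro n
    have h4 := tendsto_ag.mp (hp (φ₀ (ψ n))) n
    exact Filter.mem_of_superset h4 fun t ht => ag_trans ht (hψ' n)
  · intro s t
    have h4 : Tendsto (fun n => decide ({u | Lt s t u} ∈ f (φ₀ (ψ n)))) atTop (𝓝 (a.2 s t)) :=
      (h2 s t).comp hψ.tendsto_atTop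
    have h5 : ∀ᶠ n in atTop, decide ({u | Lt s t u} ∈ f (φ₀ (ψ n))) = a.2 s t := by
      have := h4 (show {a.2 s t} ∈ 𝓝 (a.2 s t) from (isOpen_discrete _).mem_nhds rfl)
      exact this
    cases hb : a.2 s t with
    | true =>
      left
      filter_upwards [h5] with n hn
      rw [hb] at hn
      exact of_decide_eq_true hn
    | false =>
      right
      filter_upwards [h5] with n hn
      rw [hb] at hn
      exact of_decide_eq_false hn

end Pool.Agent.Lib_helper25.Stk
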