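import Pool.Agent.Lib_helper25.Stk.NORM
import Pool.Agent.Lib_helper25.Stk.LEMD
import Pool.Agent.Lib_helper25.Stk.LEME
import Pool.Agent.Lib_helper25.Stk.CARD
import Pool.Agent.Lib_helper25.Stk.SDR
import Pool.Agent.Lib_helper25.Stk.SUB
import Pool.Agent.Lib_helper25.Stk.Core
import Pool.Agent.Lib_helper25.Stk.GOOD1
import Pool.Agent.Lib_helper25.Stk.LIM
import Pool.Agent.Lib_helper25.Stk.ACC

set_option autoImplicit false

open Set Filter Topology Cardinal

namespace Pool.Agent.Lib_helper25.Stk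

alias norm := norm_pr
alias lemD := lemD_pr
alias lemE := lemE_pr
alias card_comeagre := card_comeagre_pr
alias sdr := sdr_pr
alias card_GG := card_GG_pr
alias sub_stable := sub_stable_pr
alias core := core_pr
alias lim := lim_pr
alias acc := acc_pr
alias good_pure := good_pure_pr

section
variable {G : Type} (D : Fam G)

/-- the embedding of `ℕ ⊕ G` in `Y` -/
def emb (t : ℕ ⊕ G) : Yt D := ⟨pure t, {t}, Filter.mem_pure.2 rfl, good_pure D t⟩

theorem emb_inj : Function.Injective (emb D) := by
  intro a b h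
  exact Ultrafilter.pure_injective (congrArg Subtype.val h)

/-- a chain at `s` converges to `s` -/
theorem emb_ch {s : ℕ} {q : ℕ → ℕ} (hq : Ch s q) :
    Tendsto (fun n => emb D (Sum.inl (q n))) atTop (𝓝 (emb D (Sum.inl s))) := by
  rw [tendsto_yt]
  intro U hU hs
  exact ch_conv hq hU.1 (Filter.mem_pure.1 hs)

/-- the sequences of `ξ` converge to `ξ` -/
theorem emb_Z (ξ : G) (b : Bool) :
    Tendsto (fun n => emb D (Sum.inl (D.Z ξ b n))) atTop (𝓝 (emb D (Sum.inr ξ))) := by
  rw [tendsto_yt]
  intro U hU hs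
  exact hU.2 ξ (Filter.mem_pure.1 hs) b

end

end Pool.Agent.Lib_helper25.Stk
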