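import Pool.Agent.Lib_helper25.Stk.AliasA

set_option autoImplicit false

open Set Filter Topology Cardinal

namespace Pool.Agent.Lib_helper25.Stk

theorem diag_aux (x : ℕ → Bool) (A A' : ℕ → Set ℕ) (hcd : ∀ n, CD (A n))
    (hA : ∀ n, A' n ⊆ A n) (hx : ∀ n, ∀ t ∈ A' n, Ag (loc t) x n) (s : ℕ) (hs : loc s ≠ x) :
    Small s ((⋃ n, A' n) \ {s}) := by
  obtain ⟨i, hi⟩ : ∃ i, loc s i ≠ x i := by
    by_contra hcon
    push Not at hcon
    exact hs (funext hcon)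
  have h1 : Small s (⋃ n ∈ {n : ℕ | n < i + 1}, (A' n \ {s})) :=
    small_biUnion (Set.finite_lt_nat (i + 1)) fun n _ =>
      small_mono (hcd n s) (Set.sdiff_subset_sdiff_left (hA n))
  have h2 : Small s (⋃ n ∈ {n : ℕ | i + 1 ≤ n}, A' n) := by
    refine small_far (i + 1) ?_
    intro t ht hag
    rw [Set.mem_iUnion₂] at ht
    obtain ⟨n, hn, ht⟩ := ht
    have h3 := hx n t ht i (lt_of_lt_of_le (Nat.lt_succ_self i) hn)
    have h4 := hag i (Nat.lt_succ_self i)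
    exact hi (h4.symm.trans h3)
  refine small_mono (small_union h1 h2) ?_
  rintro t ⟨ht, hts⟩
  rw [Set.mem_iUnion] at ht
  obtain ⟨n, hn⟩ := ht
  by_cases hni : n < i + 1
  · left
    rw [Set.mem_iUnion₂]
    exact ⟨n, hni, hn, hts⟩
  · right
    rw [Set.mem_iUnion₂]
    exact ⟨n, not_lt.mp hni, hn⟩

/-- DIAG (cites CORE) -/
theorem diag_pr (f : ℕ → Filter ℕ) (hf : ∀ n, (f n).NeBot) (x : ℕ → Bool)
    (hx : ∀ n, {t | Ag (loc t) x n} ∈ f n)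
    (dec : ∀ n s t, {u | Lt s t u} ∈ f n ∨ {u | Lt s t u}ᶜ ∈ f n)
    (stab : ∀ s t, (∀ᶠ n in atTop, {u | Lt s t u} ∈ f n) ∨
      (∀ᶠ n in atTop, {u | Lt s t u} ∉ f n))
    (A : ℕ → Set ℕ) (hA : ∀ n, A n ∈ f n) (hcd : ∀ n, CD (A n))
    (H : ∀ s, loc s = x → ∀ n, {s}ᶜ ∈ f n ∧
      {t | ∀ᶠ m in atTop, {u | Lt s t u} ∈ f m}ᶜ ∈ f n) :
    ∃ A' : ℕ → Set ℕ, (∀ n, A' n ⊆ A n) ∧ (∀ n, A' n ∈ f n) ∧
      (∀ n, ∀ t ∈ A' n, Ag (loc t) x n) ∧ CD (⋃ n, A' n) := by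
  by_cases hex : ∃ s, loc s = x
  · obtain ⟨s, hs⟩ := hex
    have hW : ∀ n, ∃ W, MOpen W ∧ A n \ {s} ⊆ W ∧ s ∉ W ∧ ∀ q, Ch s q → ∃ i, q i ∉ W :=
      fun n => hcd n s
    choose W h1 h2 h3 h4 using hW
    obtain ⟨W', h5, h6, h7⟩ := core s f hf (fun n t => dec n s t) (stab s)
      (fun n => (H s hs n).2) W h1
      (fun n => Filter.mem_of_superset (Filter.inter_mem (hA n) (H s hs n).1)
        (fun t ht => h2 n ⟨ht.1, ht.2⟩)) h3 h4
    refine ⟨fun n => A n ∩ W' n ∩ {t | Ag (loc t) x n}, fun n t ht => ht.1.1,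
      fun n => Filter.inter_mem (Filter.inter_mem (hA n) (h6 n)) (hx n), fun n t ht => ht.2, ?_⟩
    intro s'
    by_cases hss : s' = s
    · subst hss
      refine small_mono h7 ?_
      rintro t ⟨ht, _⟩
      rw [Set.mem_iUnion] at ht ⊢
      obtain ⟨n, hn⟩ := ht
      exact ⟨n, hn.1.2⟩
    · refine diag_aux x A _ hcd (fun n t ht => ht.1.1) (fun n t ht => ht.2) s' ?_
      intro hc
      exact hss (loc_inj (hc.trans hs.symm))
  · push Not at hex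
    refine ⟨fun n => A n ∩ {t | Ag (loc t) x n}, fun n t ht => ht.1,
      fun n => Filter.inter_mem (hA n) (hx n), fun n t ht => ht.2, ?_⟩
    intro s'
    exact diag_aux x A _ hcd (fun n t ht => ht.1) (fun n t ht => ht.2) s' (hex s')

end Pool.Agent.Lib_helper25.Stk
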