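import Pool.Agent.Lib_helper25.Stk.AliasA
import Pool.Agent.Lib_helper25.Stk.DIAG

set_option autoImplicit false

open Set Filter Topology Cardinal

namespace Pool.Agent.Lib_helper25.Stk

alias diag := diag_pr

end Pool.Agent.Lib_helper25.Stk
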