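import Pool.Agent.Lib_helper25.Stk.AliasA
import Pool.Agent.Lib_helper25.Stk.SUB
import Pool.Agent.Lib_helper25.Stk.DIAG

set_option autoImplicit false

open Set Filter Topology Cardinal

namespace Pool.Agent.Lib_helper25.Stk

/-- the eventual set of cones is pairwise comparable -/
theorem dfree_comp (f : ℕ → Filter ℕ) (hf : ∀ n, (f n).NeBot) (s a b : ℕ)
    (ha : ∀ᶠ m in atTop, {u | Lt s a u} ∈ f m) (hb : ∀ᶠ m in atTop, {u | Lt s b u} ∈ f m)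
    (hne : a ≠ b) : Lt s a b ∨ Lt s b a := by
  obtain ⟨m, h1, h2⟩ := (ha.and hb).exists
  obtain ⟨u, hu1, hu2⟩ := (hf m).nonempty_of_mem (Filter.inter_mem h1 h2)
  rcases lt_comp hu1 hu2 with h | h | h
  · exact absurd h hne
  · exact Or.inl h
  · exact Or.inr h

/-- DFREE (cites SUB, DIAG) -/
theorem diag_free_pr (f : ℕ → Filter ℕ) (hf : ∀ n, (f n).NeBot) (p : ℕ → ℕ → Bool)
    (hp : ∀ n, Tendsto loc (f n) (𝓝 (p n))) (free : ∀ n t, {t}ᶜ ∈ f n)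
    (dec : ∀ n s t, {u | Lt s t u} ∈ f n ∨ {u | Lt s t u}ᶜ ∈ f n)
    (A : ℕ → Set ℕ) (hA : ∀ n, A n ∈ f n) (hcd : ∀ n, CD (A n)) :
    ∃ φ : ℕ → ℕ, StrictMono φ ∧ ∃ x, ∃ A' : ℕ → Set ℕ, (∀ n, A' n ⊆ A (φ n)) ∧
      (∀ n, A' n ∈ f (φ n)) ∧ (∀ n, ∀ t ∈ A' n, Ag (loc t) x n) ∧ CD (⋃ n, A' n) := by
  obtain ⟨φ, hφ, x, hx, stab⟩ := sub_stable_pr f p hp
  refine ⟨φ, hφ, x, ?_⟩
  refine diag_pr (fun n => f (φ n)) (fun n => hf (φ n)) x hx (fun n => dec (φ n)) stab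
    (fun n => A (φ n)) (fun n => hA (φ n)) (fun n => hcd (φ n)) ?_
  intro s hs n
  refine ⟨free (φ n) s, ?_⟩
  obtain ⟨W, h1, h2, h3, h4⟩ := hcd (φ n) s
  set B := {t | ∀ᶠ m in atTop, {u | Lt s t u} ∈ f (φ m)} with hB
  have hfin : (B ∩ W).Finite := by
    by_contra hinf
    obtain ⟨q, hq, hqB⟩ := ch_of_infinite (s := s) (B := B ∩ W) hinf (fun h => h3 h.2)
      (fun a ha b hb hne => dfree_comp (fun n => f (φ n)) (fun n => hf (φ n)) s a b ha.1 hb.1 hne)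
    obtain ⟨i, hi⟩ := h4 q hq
    exact hi (hqB i).2
  have hfree : (B ∩ W)ᶜ ∈ f (φ n) := by
    have : (B ∩ W)ᶜ = ⋂ t ∈ B ∩ W, {t}ᶜ := by
      ext u
      simp only [Set.mem_compl_iff, Set.mem_iInter, Set.mem_singleton_iff]
      constructor
      · intro h t ht hut
        rw [hut] at h
        exact h ht
      · intro h hu
        exact h u hu rfl
    rw [this]
    exact (Filter.biInter_mem hfin).mpr fun t _ => free (φ n) t
  have hWm : W ∈ f (φ n) :=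
    Filter.mem_of_superset (Filter.inter_mem (hA (φ n)) (free (φ n) s))
      (fun t ht => h2 ⟨ht.1, ht.2⟩)
  refine Filter.mem_of_superset (Filter.inter_mem hfree hWm) ?_
  rintro t ⟨ht1, ht2⟩ htB
  exact ht1 ⟨htB, ht2⟩

end Pool.Agent.Lib_helper25.Stk
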