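import Pool.Agent.Lib_helper25.Stk.AliasB
import Pool.Agent.Lib_helper25.Stk.DFREE

set_option autoImplicit false

open Set Filter Topology Cardinal

namespace Pool.Agent.Lib_helper25.Stk

/-- SEQ (cites SUB, DIAG) -/
theorem seq_pr (q : ℕ → ℕ) (hq : Function.Injective q) :
    ∃ φ : ℕ → ℕ, StrictMono φ ∧ ∃ x, (∀ n, Ag (loc (q (φ n))) x n) ∧
      ((∃ s, Ch s fun n => q (φ n)) ∨ CD (Set.range fun n => q (φ n))) := by
  obtain ⟨φ, hφ, x, hx, stab⟩ := sub_stable_pr (fun n => pure (q n)) (fun n => loc (q n))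
    (fun n => tendsto_pure_nhds loc (q n))
  have hx' : ∀ n, Ag (loc (q (φ n))) x n := fun n => Filter.mem_pure.1 (hx n)
  by_cases hA : ∃ s, loc s = x ∧
      {n | ∀ᶠ m in atTop, {u | Lt s (q (φ n)) u} ∈ (pure (q (φ m)) : Filter ℕ)}.Infinite
  · obtain ⟨s, hs, hinf⟩ := hA
    set K := {n | ∀ᶠ m in atTop, {u | Lt s (q (φ n)) u} ∈ (pure (q (φ m)) : Filter ℕ)} with hK
    have hinj : Function.Injective fun n => q (φ n) := hq.comp hφ.injective
    have hBinf : ((fun n => q (φ n)) '' K).Infinite := hinf.image hinj.injOn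
    have hsB : s ∉ (fun n => q (φ n)) '' K := by
      rintro ⟨n, hn, hns⟩
      obtain ⟨m, hm⟩ := hn.exists
      have := (lt_ann (Filter.mem_pure.1 hm)).1
      exact this hns
    obtain ⟨q', hq', hq'B⟩ := ch_of_infinite hBinf hsB (by
      rintro _ ⟨a, ha, rfl⟩ _ ⟨b, hb, rfl⟩ hne
      exact dfree_comp (fun n => pure (q (φ n))) (fun n => Filter.pure_neBot) s _ _ ha hb hne)
    choose κ hκ hκ' using hq'B
    have hκinj : Function.Injective κ := by
      intro a b hab
      apply ch_inj hq'
      rw [← hκ' a, ← hκ' b, hab]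
    obtain ⟨ψ, hψ, hψ'⟩ := Filter.strictMono_subseq_of_tendsto_atTop
      (Function.Injective.nat_tendsto_atTop hκinj)
    refine ⟨fun n => φ (κ (ψ n)), hφ.comp hψ', x, ?_, Or.inl ⟨s, ?_⟩⟩
    · intro n
      exact ag_mono (hx' (κ (ψ n))) (hψ'.le_apply)
    · have h1 := ch_sub hq' hψ
      have h2 : (fun n => q' (ψ n)) = fun n => q (φ (κ (ψ n))) := by
        funext n
        exact (hκ' (ψ n)).symm
      rw [h2] at h1
      exact h1
  · push Not at hA
    have hN : ∃ N, ∀ s, loc s = x → ∀ n, N ≤ n → q (φ n) ≠ s ∧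
        ¬ ∀ᶠ m in atTop, {u | Lt s (q (φ n)) u} ∈ (pure (q (φ m)) : Filter ℕ) := by
      by_cases hex : ∃ s, loc s = x
      · obtain ⟨s, hs⟩ := hex
        have hf1 : {n | ∀ᶠ m in atTop, {u | Lt s (q (φ n)) u} ∈
            (pure (q (φ m)) : Filter ℕ)}.Finite := hA s hs
        have hf2 : {n | q (φ n) = s}.Finite := by
          refine Set.Subsingleton.finite ?_
          intro a ha b hb
          exact hφ.injective (hq (Eq.trans ha (Eq.symm hb)))
        obtain ⟨N, hN⟩ := (hf1.union hf2).bddAbove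
        refine ⟨N + 1, ?_⟩
        intro s' hs' n hn
        have hss : s' = s := loc_inj (hs'.trans hs.symm)
        subst hss
        constructor
        · intro h
          have := hN (Or.inr h : n ∈ _ ∪ _)
          omega
        · intro h
          have := hN (Or.inl h : n ∈ _ ∪ _)
          omega
      · exact ⟨0, fun s hs => absurd ⟨s, hs⟩ hex⟩
    obtain ⟨N, hN⟩ := hN
    have hshift : ∀ s t, (∀ᶠ m in atTop, {u | Lt s t u} ∈ (pure (q (φ (m + N))) : Filter ℕ)) ↔
        ∀ᶠ m in atTop, {u | Lt s t u} ∈ (pure (q (φ m)) : Filter ℕ) := by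
      intro s t
      constructor
      · intro h
        obtain ⟨M, hM⟩ := Filter.eventually_atTop.mp h
        refine Filter.eventually_atTop.mpr ⟨M + N, fun m hm => ?_⟩
        have := hM (m - N) (by omega)
        rwa [Nat.sub_add_cancel (by omega)] at this
      · intro h
        obtain ⟨M, hM⟩ := Filter.eventually_atTop.mp h
        exact Filter.eventually_atTop.mpr ⟨M, fun m hm => hM (m + N) (by omega)⟩
    have hφN : StrictMono fun n => φ (n + N) := fun a b hab => hφ (by omega)
    obtain ⟨A', h1, h2, h3, h4⟩ := diag_pr (fun n => pure (q (φ (n + N))))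
      (fun n => Filter.pure_neBot) x
      (fun n => Filter.mem_pure.2 (ag_mono (hx' (n + N)) (by omega)))
      (fun n s t => by
        by_cases h : Lt s t (q (φ (n + N)))
        · exact Or.inl (Filter.mem_pure.2 h)
        · exact Or.inr (Filter.mem_pure.2 h))
      (fun s t => by
        rcases stab s t with h | h
        · exact Or.inl ((hshift s t).mpr h)
        · right
          obtain ⟨M, hM⟩ := Filter.eventually_atTop.mp h
          exact Filter.eventually_atTop.mpr ⟨M, fun m hm => hM (m + N) (by omega)⟩)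
      (fun n => {q (φ (n + N))}) (fun n => Filter.mem_pure.2 rfl)
      (fun n => cd_finite (Set.finite_singleton _))
      (fun s hs n => by
        obtain ⟨h1, h2⟩ := hN s hs (n + N) (by omega)
        refine ⟨Filter.mem_pure.2 h1, Filter.mem_pure.2 ?_⟩
        intro hc
        exact h2 ((hshift s _).mp hc))
    refine ⟨fun n => φ (n + N), hφN, x, fun n => ag_mono (hx' (n + N)) (by omega), Or.inr ?_⟩
    refine cd_mono h4 ?_
    rintro _ ⟨n, rfl⟩
    rw [Set.mem_iUnion]
    exact ⟨n, Filter.mem_pure.1 (h2 n)⟩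

end Pool.Agent.Lib_helper25.Stk
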