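import Pool.Agent.Lib_helper25.Stk.AliasC

set_option autoImplicit false

open Set Filter Topology Cardinal

namespace Pool.Agent.Lib_helper25.Stk

section
variable {G : Type} (D : Fam G)

/-- CC1 (cites SEQ, GOOD1) -/
theorem cc1_pr (q : ℕ → ℕ) (hq : Function.Injective q) :
    ∃ φ : ℕ → ℕ, StrictMono φ ∧ ((∃ S, Good D S ∧ ∀ n, Sum.inl (q (φ n)) ∈ S) ∨
      ∃ y, Tendsto (fun n => emb D (Sum.inl (q (φ n)))) atTop (𝓝 y)) := by
  classical
  obtain ⟨φ, hφ, x, hx, h⟩ := seq q hq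
  rcases h with ⟨s, hs⟩ | h
  · exact ⟨φ, hφ, Or.inr ⟨_, emb_ch D hs⟩⟩
  · by_cases hfin : ∀ ξ b, {n | D.Z ξ b n ∈ Set.range fun n => q (φ n)}.Finite
    · refine ⟨φ, hφ, Or.inl ⟨Sum.inl '' (Set.range fun n => q (φ n)), ?_, fun n =>
        ⟨_, ⟨n, rfl⟩, rfl⟩⟩⟩
      refine ⟨?_, ⟨fun _ => 0, ?_⟩, ?_⟩
      · have : {ξ : G | (Sum.inr ξ : ℕ ⊕ G) ∈
            Sum.inl '' (Set.range fun n => q (φ n))} = ∅ := by
          ext ξ
          simp
        rw [this]
        exact Set.countable_empty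
      · refine cd_mono h ?_
        rintro k (hk | ⟨ξ, b, n, h1, _⟩)
        · obtain ⟨k', hk', hkk⟩ := hk
          rw [← Sum.inl.inj hkk]
          exact hk'
        · obtain ⟨k', _, hkk⟩ := h1
          exact absurd hkk (by simp)
      · intro ξ b
        refine (hfin ξ b).subset ?_
        rintro n ⟨k', hk', hkk⟩
        have : k' = D.Z ξ b n := Sum.inl.inj hkk
        change D.Z ξ b n ∈ Set.range fun n => q (φ n)
        rw [← this]
        exact hk'
    · push Not at hfin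
      obtain ⟨ξ, b, hinf⟩ := hfin
      have hI : {i | q (φ i) ∈ Set.range (D.Z ξ b)}.Infinite := by
        intro hI
        apply hinf
        have h1 : (D.Z ξ b ⁻¹' ((fun i => q (φ i)) '' {i | q (φ i) ∈ Set.range (D.Z ξ b)})).Finite :=
          (hI.image _).preimage ((D.hZ ξ b).injOn)
        refine h1.subset ?_
        rintro n ⟨i, hi⟩
        exact ⟨i, ⟨n, hi.symm⟩, hi⟩
      obtain ⟨ψ, hψ, hψI⟩ : ∃ ψ : ℕ → ℕ, StrictMono ψ ∧ ∀ n, q (φ (ψ n)) ∈ Set.range (D.Z ξ b) :=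
        ⟨Nat.nth _, Nat.nth_strictMono hI, fun n => Nat.nth_mem_of_infinite hI n⟩
      choose m hm using hψI
      have hminj : Function.Injective m := by
        intro i j hij
        have h1 : q (φ (ψ i)) = q (φ (ψ j)) := by rw [← hm i, ← hm j, hij]
        exact hψ.injective (hφ.injective (hq h1))
      refine ⟨fun n => φ (ψ n), hφ.comp hψ, Or.inr ⟨emb D (Sum.inr ξ), ?_⟩⟩
      have h1 := (emb_Z D ξ b).comp hminj.nat_tendsto_atTop
      have h2 : (fun n => emb D (Sum.inl (q (φ (ψ n))))) =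
          (fun n => emb D (Sum.inl (D.Z ξ b n))) ∘ m := by
        funext n
        simp [hm]
      rw [h2]
      exact h1

end

end Pool.Agent.Lib_helper25.Stk
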