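import Pool.Agent.Lib_helper25.Stk.AliasC

set_option autoImplicit false

open Set Filter Topology Cardinal

namespace Pool.Agent.Lib_helper25.Stk

section
variable {G : Type} (D : Fam G)

theorem cc2_lim (u : Ultrafilter ℕ) : ∃ p : ℕ → Bool, Tendsto loc (u : Filter ℕ) (𝓝 p) := by
  obtain ⟨p, _, hp⟩ := (isCompact_univ (X := ℕ → Bool)).ultrafilter_le_nhds (u.map loc)
    (by simp)
  exact ⟨p, hp⟩

/-- CC2 (cites DFREE) -/
theorem cc2_pr (v : ℕ → Ultrafilter (ℕ ⊕ G)) (h0 : ∀ n, Set.range Sum.inl ∈ v n)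
    (h1 : ∀ n (t : ℕ), {Sum.inl t}ᶜ ∈ v n) (h2 : ∀ n, ∃ S ∈ v n, Good D S) :
    ∃ φ : ℕ → ℕ, StrictMono φ ∧ ∃ S, Good D S ∧ ∀ n, S ∈ v (φ n) := by
  classical
  set f : ℕ → Ultrafilter ℕ := fun n => (v n).comap Sum.inl_injective (h0 n) with hf
  have hfm : ∀ n A, A ∈ f n ↔ Sum.inl '' A ∈ v n := fun n A =>
    Ultrafilter.mem_comap (v n) Sum.inl_injective (h0 n)
  choose p hp using fun n => cc2_lim (f n)
  choose S hSv hSg using h2
  have free : ∀ n t, {t}ᶜ ∈ (f n : Filter ℕ) := by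
    intro n t
    rw [Ultrafilter.mem_coe, hfm]
    refine Filter.mem_of_superset (Filter.inter_mem (h0 n) (h1 n t)) ?_
    rintro _ ⟨⟨k, rfl⟩, hk⟩
    refine ⟨k, fun h => hk ?_, rfl⟩
    rw [mem_singleton_iff.1 h]
    rfl
  have hA : ∀ n, {k | Sum.inl k ∈ S n} ∈ (f n : Filter ℕ) := by
    intro n
    rw [Ultrafilter.mem_coe, hfm]
    refine Filter.mem_of_superset (Filter.inter_mem (h0 n) (hSv n)) ?_
    rintro _ ⟨⟨k, rfl⟩, hk⟩
    exact ⟨k, hk, rfl⟩
  have hcd : ∀ n, CD {k | Sum.inl k ∈ S n} := by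
    intro n
    obtain ⟨F, hF⟩ := (hSg n).cd
    exact cd_mono hF fun k hk => Or.inl hk
  obtain ⟨φ, hφ, x, A', hA1, hA2, hA3, hA4⟩ := diag_free (fun n => (f n : Filter ℕ))
    (fun n => inferInstance) p hp free (fun n s t => (f n).mem_or_compl_mem _)
    (fun n => {k | Sum.inl k ∈ S n}) hA hcd
  -- the exceptional points
  set E : Set ℕ := {k | ∃ ξ b m, D.β ξ b = x ∧ D.Z ξ b m = k} with hE
  have hEfin : ∀ n, (A' n ∩ E).Finite := by
    intro n
    by_cases hex : ∃ ξ b, D.β ξ b = x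
    · obtain ⟨ξ, b, hξ⟩ := hex
      refine (((hSg (φ n)).fin ξ b).image (D.Z ξ b)).subset ?_
      rintro k ⟨hk, ξ', b', m, h3, h4⟩
      obtain ⟨rfl, rfl⟩ := D.hinj ξ' b' ξ b (h3.trans hξ.symm)
      refine ⟨m, ?_, h4⟩
      change Sum.inl (D.Z ξ' b' m) ∈ S (φ n)
      rw [h4]
      exact hA1 n hk
    · have : A' n ∩ E = ∅ := by
        ext k
        simp only [mem_inter_iff, mem_empty_iff_false, iff_false]
        rintro ⟨_, ξ', b', m, h3, _⟩
        exact hex ⟨ξ', b', h3⟩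
      rw [this]
      exact Set.finite_empty
  have hfinc : ∀ n (B : Set ℕ), B.Finite → Bᶜ ∈ (f n : Filter ℕ) := by
    intro n B hB
    have h3 : (⋂ t ∈ B, ({t}ᶜ : Set ℕ)) ∈ (f n : Filter ℕ) :=
      (Filter.biInter_mem hB).2 fun t _ => free n t
    refine Filter.mem_of_superset h3 ?_
    intro k hk hkB
    simp only [mem_iInter] at hk
    exact hk k hkB rfl
  refine ⟨φ, hφ, Sum.inl '' (⋃ n, A' n \ E), ⟨?_, ⟨fun _ => 0, ?_⟩, ?_⟩, ?_⟩
  · have : {ξ : G | (Sum.inr ξ : ℕ ⊕ G) ∈ Sum.inl '' (⋃ n, A' n \ E)} = ∅ := by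
      ext ξ
      simp
    rw [this]
    exact Set.countable_empty
  · refine cd_mono hA4 ?_
    rintro k (hk | ⟨ξ, b, n, h3, _⟩)
    · obtain ⟨k', hk', hkk⟩ := hk
      rw [← Sum.inl.inj hkk]
      simp only [mem_iUnion] at hk' ⊢
      obtain ⟨n, hn⟩ := hk'
      exact ⟨n, hn.1⟩
    · obtain ⟨k', _, hkk⟩ := h3
      exact absurd hkk (by simp)
  · intro ξ b
    have hmem : ∀ m, (Sum.inl (D.Z ξ b m) : ℕ ⊕ G) ∈ Sum.inl '' (⋃ n, A' n \ E) ↔
        ∃ n, D.Z ξ b m ∈ A' n \ E := by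
      intro m
      constructor
      · rintro ⟨k, hk, hkk⟩
        rw [Sum.inl.inj hkk] at hk
        simpa only [mem_iUnion] using hk
      · rintro ⟨n, hn⟩
        exact ⟨_, mem_iUnion.2 ⟨n, hn⟩, rfl⟩
    by_cases hx : D.β ξ b = x
    · have : {m | (Sum.inl (D.Z ξ b m) : ℕ ⊕ G) ∈ Sum.inl '' (⋃ n, A' n \ E)} = ∅ := by
        ext m
        simp only [mem_ofPred_eq, mem_empty_iff_false, iff_false]
        intro h3
        obtain ⟨n, hn⟩ := (hmem m).1 h3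
        exact hn.2 ⟨ξ, b, m, hx, rfl⟩
      rw [this]
      exact Set.finite_empty
    · obtain ⟨i, hi⟩ := Function.ne_iff.1 hx
      obtain ⟨M, hM⟩ := eventually_atTop.1 (tendsto_ag.1 (D.hlim ξ b) (i + 1))
      have h4 : ({m | m < M} ∪ ⋃ n ∈ ({n | n < i + 1} : Set ℕ),
          {m | Sum.inl (D.Z ξ b m) ∈ S (φ n)}).Finite :=
        (Set.finite_lt_nat M).union ((Set.finite_lt_nat (i + 1)).biUnion fun n _ =>
          (hSg (φ n)).fin ξ b)
      refine h4.subset ?_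
      intro m hm
      obtain ⟨n, hn⟩ := (hmem m).1 hm
      rcases Nat.lt_or_ge m M with h5 | h5
      · exact Or.inl h5
      · right
        rcases Nat.lt_or_ge n (i + 1) with h6 | h6
        · exact mem_biUnion (show n ∈ {n | n < i + 1} from h6) (hA1 n hn.1)
        · exfalso
          have h7 := hA3 n _ hn.1 i (lt_of_lt_of_le (Nat.lt_succ_self i) h6)
          have h8 := hM m h5 i (Nat.lt_succ_self i)
          exact hi (h8.symm.trans h7)
  · intro n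
    have h3 : A' n \ E ∈ (f (φ n) : Filter ℕ) := by
      refine Filter.mem_of_superset (Filter.inter_mem (hA2 n) (hfinc (φ n) _ (hEfin n))) ?_
      rintro k ⟨hk, hk'⟩
      exact ⟨hk, fun hkE => hk' ⟨hk, hkE⟩⟩
    have h4 := (hfm (φ n) _).1 h3
    exact Filter.mem_of_superset h4 (Set.image_mono (fun k hk => mem_iUnion.2 ⟨n, hk⟩))

end

end Pool.Agent.Lib_helper25.Stk
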