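import Pool.Agent.Lib_helper25.Stk.AliasC

set_option autoImplicit false

open Set Filter Topology Cardinal

namespace Pool.Agent.Lib_helper25.Stk

section
variable {G : Type} (D : Fam G)

/-- the filter of sets containing tails of the sequences of almost all points -/
def cc3F (u : Ultrafilter G) (b : Bool) : Filter ℕ :=
  Filter.bind (u : Filter G) fun ξ => Filter.map (D.Z ξ b) atTop

theorem cc3_mem (u : Ultrafilter G) (b : Bool) (A : Set ℕ) :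
    A ∈ cc3F D u b ↔ {ξ | ∀ᶠ k in atTop, D.Z ξ b k ∈ A} ∈ (u : Filter G) := by
  unfold cc3F
  rw [Filter.mem_bind']
  rfl

theorem cc3_neBot (u : Ultrafilter G) (b : Bool) : (cc3F D u b).NeBot := by
  rw [Filter.neBot_iff, ne_eq, ← Filter.empty_mem_iff_bot, cc3_mem]
  intro h
  have : {ξ : G | ∀ᶠ k in atTop, D.Z ξ b k ∈ (∅ : Set ℕ)} = ∅ := by
    ext ξ
    simp only [mem_empty_iff_false, iff_false]
    intro hξ
    obtain ⟨k, hk⟩ := Filter.Eventually.exists hξ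
    exact hk
  rw [this] at h
  exact u.empty_notMem h

theorem cc3_lim (u : Ultrafilter G) (b : Bool) :
    ∃ p : ℕ → Bool, Tendsto loc (cc3F D u b) (𝓝 p) := by
  obtain ⟨p, _, hp⟩ := (isCompact_univ (X := ℕ → Bool)).ultrafilter_le_nhds
    (u.map fun ξ => D.β ξ b) (by simp)
  have hp' : Tendsto (fun ξ => D.β ξ b) (u : Filter G) (𝓝 p) := hp
  refine ⟨p, ?_⟩
  rw [tendsto_ag] at hp' ⊢
  intro m
  have h1 : {t | Ag (loc t) p m} ∈ cc3F D u b := by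
    rw [cc3_mem]
    refine Filter.mem_of_superset (hp' m) ?_
    intro ξ hξ
    filter_upwards [tendsto_ag.1 (D.hlim ξ b) m] with k hk
    exact ag_trans hk hξ
  exact h1

theorem cc3_free (u : Ultrafilter G) (b : Bool) (t : ℕ) : {t}ᶜ ∈ cc3F D u b := by
  rw [cc3_mem]
  refine Filter.univ_mem' fun ξ => ?_
  have h1 := (D.hZ ξ b).tendsto_cofinite
  rw [Nat.cofinite_eq_atTop] at h1
  have h2 : ({t}ᶜ : Set ℕ) ∈ (atTop : Filter ℕ) := by
    rw [← Nat.cofinite_eq_atTop]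
    exact (Set.finite_singleton t).compl_mem_cofinite
  exact h1 h2

theorem cc3_dec0 (ξ : G) (b : Bool) (s t : ℕ) :
    (∀ᶠ k in atTop, Lt s t (D.Z ξ b k)) ∨ (∀ᶠ k in atTop, ¬ Lt s t (D.Z ξ b k)) := by
  classical
  have hne : D.β ξ b ≠ loc s := fun h => D.hβ ξ b ⟨s, h.symm⟩
  have hex : ∃ i, D.β ξ b i ≠ loc s i := Function.ne_iff.1 hne
  set j := Nat.find hex with hj
  have hj1 : D.β ξ b j ≠ loc s j := Nat.find_spec hex
  have hj2 : Ag (D.β ξ b) (loc s) j := by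
    intro i hi
    by_contra h
    exact Nat.find_min hex hi h
  obtain ⟨M, hM⟩ := eventually_atTop.1 (tendsto_ag.1 (D.hlim ξ b) (j + 1))
  have hann : ∀ k, M ≤ k → D.Z ξ b k ≠ s ∧ ann s (D.Z ξ b k) = j := fun k hk =>
    ann_eq_of hj2 hj1 (hM k hk)
  by_cases h : Lt s t (D.Z ξ b M)
  · left
    refine eventually_atTop.2 ⟨M, fun k hk => ?_⟩
    exact lt_congr h (hann k hk).1 ((hann k hk).2.trans (hann M le_rfl).2.symm)
  · right
    refine eventually_atTop.2 ⟨M, fun k hk hlt => h ?_⟩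
    exact lt_congr hlt (hann M le_rfl).1 ((hann M le_rfl).2.trans (hann k hk).2.symm)

theorem cc3_dec (u : Ultrafilter G) (b : Bool) (s t : ℕ) :
    {k | Lt s t k} ∈ cc3F D u b ∨ {k | Lt s t k}ᶜ ∈ cc3F D u b := by
  rw [cc3_mem, cc3_mem]
  rcases u.mem_or_compl_mem {ξ | ∀ᶠ k in atTop, D.Z ξ b k ∈ {k | Lt s t k}} with h | h
  · exact Or.inl h
  · right
    refine Filter.mem_of_superset h ?_
    intro ξ hξ
    exact (cc3_dec0 D ξ b s t).resolve_left hξ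

/-- CC3 (cites DFREE) -/
theorem cc3_pr (v : ℕ → Ultrafilter (ℕ ⊕ G)) (h0 : ∀ n, Set.range Sum.inr ∈ v n)
    (h2 : ∀ n, ∃ S ∈ v n, Good D S) :
    ∃ φ : ℕ → ℕ, StrictMono φ ∧ ∃ S, Good D S ∧ ∀ n, S ∈ v (φ n) := by
  classical
  set u : ℕ → Ultrafilter G := fun n => (v n).comap Sum.inr_injective (h0 n) with hu
  have hum : ∀ n A, A ∈ u n ↔ Sum.inr '' A ∈ v n := fun n A =>
    Ultrafilter.mem_comap (v n) Sum.inr_injective (h0 n)
  choose S hSv hSg using h2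
  choose F hF using fun n => (hSg n).cd
  have hSu : ∀ n, {ξ | Sum.inr ξ ∈ S n} ∈ (u n : Filter G) := by
    intro n
    rw [Ultrafilter.mem_coe, hum]
    refine Filter.mem_of_superset (Filter.inter_mem (h0 n) (hSv n)) ?_
    rintro _ ⟨⟨k, rfl⟩, hk⟩
    exact ⟨k, hk, rfl⟩
  have hA : ∀ n b, flat D (S n) (F n) ∈ cc3F D (u n) b := by
    intro n b
    rw [cc3_mem]
    refine Filter.mem_of_superset (hSu n) ?_
    intro ξ hξ
    exact eventually_atTop.2 ⟨F n ξ, fun k hk => Or.inr ⟨ξ, b, k, hξ, hk, rfl⟩⟩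
  choose p hp using fun n b => cc3_lim D (u n) b
  obtain ⟨φ₁, hφ₁, x₁, A₁, hA11, hA12, hA13, hA14⟩ := diag_free (fun n => cc3F D (u n) true)
    (fun n => cc3_neBot D _ _) (fun n => p n true) (fun n => hp n true)
    (fun n t => cc3_free D _ _ t) (fun n s t => cc3_dec D _ _ s t)
    (fun n => flat D (S n) (F n)) (fun n => hA n true) hF
  obtain ⟨φ₂, hφ₂, x₂, A₂, hA21, hA22, hA23, hA24⟩ := diag_free
    (fun n => cc3F D (u (φ₁ n)) false)
    (fun n => cc3_neBot D _ _) (fun n => p (φ₁ n) false) (fun n => hp (φ₁ n) false)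
    (fun n t => cc3_free D _ _ t) (fun n s t => cc3_dec D _ _ s t)
    (fun n => flat D (S (φ₁ n)) (F (φ₁ n))) (fun n => hA (φ₁ n) false) (fun n => hF (φ₁ n))
  set T : ℕ → Set G := fun n => {ξ | Sum.inr ξ ∈ S (φ₁ (φ₂ n)) ∧
    (∀ᶠ k in atTop, D.Z ξ true k ∈ A₁ (φ₂ n)) ∧ ∀ᶠ k in atTop, D.Z ξ false k ∈ A₂ n} with hT
  have hTu : ∀ n, T n ∈ (u (φ₁ (φ₂ n)) : Filter G) := by
    intro n
    have h3 := (cc3_mem D _ _ _).1 (hA12 (φ₂ n))
    have h4 := (cc3_mem D _ _ _).1 (hA22 n)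
    exact Filter.inter_mem (hSu _) (Filter.inter_mem h3 h4)
  have htail : ∀ ξ ∈ ⋃ n, T n, ∃ N, ∃ n, ∀ k, N ≤ k →
      D.Z ξ true k ∈ A₁ (φ₂ n) ∧ D.Z ξ false k ∈ A₂ n := by
    intro ξ hξ
    obtain ⟨n, _, h3, h4⟩ := mem_iUnion.1 hξ
    obtain ⟨N, hN⟩ := eventually_atTop.1 (h3.and h4)
    exact ⟨N, n, hN⟩
  choose! N nn hN using htail
  refine ⟨fun n => φ₁ (φ₂ n), hφ₁.comp hφ₂, Sum.inr '' (⋃ n, T n), ⟨?_, ⟨N, ?_⟩, ?_⟩, ?_⟩
  · have : {ξ : G | (Sum.inr ξ : ℕ ⊕ G) ∈ Sum.inr '' (⋃ n, T n)} ⊆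
        ⋃ n, {ξ | Sum.inr ξ ∈ S (φ₁ (φ₂ n))} := by
      rintro ξ ⟨ξ', hξ', h3⟩
      rw [← Sum.inr.inj h3]
      obtain ⟨n, h4, _⟩ := mem_iUnion.1 hξ'
      exact mem_iUnion.2 ⟨n, h4⟩
    exact (Set.countable_iUnion fun n => (hSg _).ctbl).mono this
  · refine cd_mono (cd_union hA14 hA24) ?_
    rintro k (hk | ⟨ξ, b, m, h3, h4, rfl⟩)
    · obtain ⟨ξ', _, h3⟩ := hk
      exact absurd h3 (by simp)
    · obtain ⟨ξ', hξ', h5⟩ := h3
      rw [Sum.inr.inj h5] at hξ'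
      have h6 := hN ξ hξ' m h4
      cases b
      · exact Or.inr (mem_iUnion.2 ⟨_, h6.2⟩)
      · exact Or.inl (mem_iUnion.2 ⟨_, h6.1⟩)
  · intro ξ b
    have : {n | (Sum.inl (D.Z ξ b n) : ℕ ⊕ G) ∈ Sum.inr '' (⋃ n, T n)} = ∅ := by
      ext m
      simp
    rw [this]
    exact Set.finite_empty
  · intro n
    have h3 := (hum _ _).1 (hTu n)
    exact Filter.mem_of_superset h3 (Set.image_mono fun ξ hξ => mem_iUnion.2 ⟨n, hξ⟩)

end

end Pool.Agent.Lib_helper25.Stk
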