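import Pool.Agent.Lib_helper25.Stk.AliasC
import Pool.Agent.Lib_helper25.Stk.CC1
import Pool.Agent.Lib_helper25.Stk.CC2
import Pool.Agent.Lib_helper25.Stk.CC3

set_option autoImplicit false

open Set Filter Topology Cardinal

namespace Pool.Agent.Lib_helper25.Stk

alias cc1 := cc1_pr
alias cc2 := cc2_pr
alias cc3 := cc3_pr

end Pool.Agent.Lib_helper25.Stk
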