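import Pool.Agent.Lib_helper25.Stk.AliasD

set_option autoImplicit false

open Set Filter Topology Cardinal

namespace Pool.Agent.Lib_helper25.Stk

section
variable {G : Type} (D : Fam G)

theorem cc_map_le {φ : ℕ → ℕ} (hφ : StrictMono φ) :
    (((hyperfilter ℕ).map φ : Ultrafilter ℕ) : Filter ℕ) ≤ atTop := by
  rw [Ultrafilter.coe_map]
  exact (hφ.tendsto_atTop.mono_left Nat.hyperfilter_le_atTop)

theorem cc_good (v : ℕ → Yt D) {φ : ℕ → ℕ} (hφ : StrictMono φ) (S : Set (ℕ ⊕ G))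
    (hS : Good D S) (h : ∀ n, S ∈ (v (φ n)).1) :
    ∃ (w : Ultrafilter ℕ) (y : Yt D), (w : Filter ℕ) ≤ atTop ∧
      Tendsto v (w : Filter ℕ) (𝓝 y) := by
  obtain ⟨y, hy⟩ := lim D v ((hyperfilter ℕ).map φ) S hS (by
    rw [Ultrafilter.coe_map]
    exact Filter.eventually_map.2 (Filter.Eventually.of_forall h))
  exact ⟨_, y, cc_map_le hφ, hy⟩

/-- CC (cites LIM, CC1, CC2, CC3) -/
theorem cc_pr (v : ℕ → Yt D) (hv : Function.Injective v) :
    ∃ (w : Ultrafilter ℕ) (y : Yt D), (w : Filter ℕ) ≤ atTop ∧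
      Tendsto v (w : Filter ℕ) (𝓝 y) := by
  classical
  have hsub : ∀ P : ℕ → Prop, {n | P n}.Infinite →
      ∃ ψ : ℕ → ℕ, StrictMono ψ ∧ ∀ n, P (ψ n) := fun P hP =>
    ⟨Nat.nth P, Nat.nth_strictMono hP, fun n => Nat.nth_mem_of_infinite hP n⟩
  have htype : ∀ n, (∃ k, (v n).1 = pure (Sum.inl k)) ∨
      (Set.range Sum.inl ∈ (v n).1 ∧ ∀ t : ℕ, {Sum.inl t}ᶜ ∈ (v n).1) ∨
      Set.range Sum.inr ∈ (v n).1 := by
    intro n
    by_cases h1 : Set.range Sum.inl ∈ (v n).1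
    · by_cases h2 : ∀ t : ℕ, {Sum.inl t}ᶜ ∈ (v n).1
      · exact Or.inr (Or.inl ⟨h1, h2⟩)
      · left
        push Not at h2
        obtain ⟨k, hk⟩ := h2
        refine ⟨k, ?_⟩
        have h3 : {Sum.inl k} ∈ (v n).1 := Ultrafilter.compl_notMem_iff.1 hk
        apply Ultrafilter.eq_of_le
        intro A hA
        rw [Ultrafilter.coe_pure, Filter.mem_pure] at hA
        exact Filter.mem_of_superset h3 (Set.singleton_subset_iff.2 hA)
    · right; right
      have h3 := Ultrafilter.compl_mem_iff_notMem.2 h1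
      rwa [Set.compl_range_inl] at h3
  by_cases ha : {n | ∃ k, (v n).1 = pure (Sum.inl k)}.Infinite
  · obtain ⟨ψ, hψ, h1⟩ := hsub _ ha
    choose q hq using h1
    have hve : ∀ n, v (ψ n) = emb D (Sum.inl (q n)) := fun n => Subtype.ext (hq n)
    have hqinj : Function.Injective q := by
      intro i j hij
      have : v (ψ i) = v (ψ j) := by rw [hve, hve, hij]
      exact hψ.injective (hv this)
    obtain ⟨φ, hφ, h2⟩ := cc1 D q hqinj
    rcases h2 with ⟨S, hS, h3⟩ | ⟨y, hy⟩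
    · refine cc_good D v (hψ.comp hφ) S hS fun n => ?_
      change S ∈ (v (ψ (φ n))).1
      rw [hve]
      exact Filter.mem_pure.2 (h3 n)
    · refine ⟨(hyperfilter ℕ).map (ψ ∘ φ), y, cc_map_le (hψ.comp hφ), ?_⟩
      rw [Ultrafilter.coe_map, Filter.tendsto_map'_iff]
      have h4 : v ∘ (ψ ∘ φ) = fun n => emb D (Sum.inl (q (φ n))) := by
        funext n
        exact hve (φ n)
      rw [h4]
      exact hy.mono_left Nat.hyperfilter_le_atTop
  · by_cases hb : {n | Set.range Sum.inl ∈ (v n).1 ∧ ∀ t : ℕ, {Sum.inl t}ᶜ ∈ (v n).1}.Infinite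
    · obtain ⟨ψ, hψ, h1⟩ := hsub _ hb
      obtain ⟨φ, hφ, S, hS, h2⟩ := cc2 D (fun n => (v (ψ n)).1) (fun n => (h1 n).1)
        (fun n => (h1 n).2) (fun n => (v (ψ n)).2)
      exact cc_good D v (hψ.comp hφ) S hS h2
    · have hc : {n | Set.range Sum.inr ∈ (v n).1}.Infinite := by
        intro hc
        rw [Set.not_infinite] at ha hb
        refine Set.infinite_univ (α := ℕ) (((ha.union hb).union hc).subset ?_)
        intro n _
        rcases htype n with h | h | h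
        · exact Or.inl (Or.inl h)
        · exact Or.inl (Or.inr h)
        · exact Or.inr h
      obtain ⟨ψ, hψ, h1⟩ := hsub _ hc
      obtain ⟨φ, hφ, S, hS, h2⟩ := cc3 D (fun n => (v (ψ n)).1) h1 (fun n => (v (ψ n)).2)
      exact cc_good D v (hψ.comp hφ) S hS h2

end

end Pool.Agent.Lib_helper25.Stk
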