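import Pool.Agent.Lib_helper25.Stk.AliasA

/-! Block COVER (cites SDR; ACC is proved in this library). -/

set_option autoImplicit false

open Set Filter Topology Cardinal

namespace Pool.Agent.Lib_helper25.Stk

/-- the closure process -/
inductive CovX {Y T : Type} (ι : T → Y)
    (e : (ℕ → Y × Ultrafilter T) → (ℕ → Bool) → Y × Ultrafilter T) : Y × Ultrafilter T → Prop
  | base (t : T) : CovX ι e (ι t, pure t)
  | step (d : ℕ → Y × Ultrafilter T) (hd : ∀ n, CovX ι e (d n)) (z : ℕ → Bool) :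
      CovX ι e (e d z)

/-- arities of the codes -/
def covAr (T : Type) : T ⊕ (ℕ → Bool) → Type
  | Sum.inl _ => Empty
  | Sum.inr _ => ℕ

/-- evaluation of the codes -/
def covEv {Y T : Type} (ι : T → Y)
    (e : (ℕ → Y × Ultrafilter T) → (ℕ → Bool) → Y × Ultrafilter T) :
    WType (covAr T) → Y × Ultrafilter T
  | WType.mk (Sum.inl t) _ => (ι t, pure t)
  | WType.mk (Sum.inr z) f => e (fun n : ℕ => covEv ι e (f n)) z

theorem cov_surj {Y T : Type} (ι : T → Y)
    (e : (ℕ → Y × Ultrafilter T) → (ℕ → Bool) → Y × Ultrafilter T) (p : Y × Ultrafilter T)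
    (hp : CovX ι e p) : ∃ c, covEv ι e c = p := by
  induction hp with
  | base t => exact ⟨WType.mk (Sum.inl t) (fun x => Empty.elim x), by simp [covEv]⟩
  | step d hd z ih =>
    choose c hc using ih
    refine ⟨WType.mk (Sum.inr z) c, ?_⟩
    have : covEv ι e (WType.mk (Sum.inr z) c) = e (fun n : ℕ => covEv ι e (c n)) z := by
      simp [covEv]
    rw [this]
    congr 1
    funext n
    exact hc n

theorem cov_card_W {T : Type} (hT : #T ≤ 𝔠) : #(WType (covAr T)) ≤ 𝔠 := by
  apply WType.cardinalMk_le_of_le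
  have h1 : ∀ a : T ⊕ (ℕ → Bool), 𝔠 ^ #(covAr T a) ≤ 𝔠 := by
    intro a
    cases a with
    | inl t =>
      have : #(covAr T (Sum.inl t)) = 0 := by
        change #Empty = 0
        simp
      rw [this, power_zero]
      exact le_of_lt (lt_of_lt_of_le one_lt_aleph0 aleph0_le_continuum)
    | inr z =>
      have : #(covAr T (Sum.inr z)) = ℵ₀ := by
        change #ℕ = ℵ₀
        simp
      rw [this, continuum_power_aleph0]
  refine le_trans (Cardinal.sum_le_sum _ (fun _ => 𝔠) h1) ?_
  rw [Cardinal.sum_const', mk_sum]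
  have h2 : #(ℕ → Bool) = 𝔠 := by
    rw [← Cardinal.power_def]
    simp
  rw [lift_id, lift_id, h2]
  calc (#T + 𝔠) * 𝔠 ≤ (𝔠 + 𝔠) * 𝔠 := by gcongr
    _ = 𝔠 := by rw [continuum_add_self, continuum_mul_self]

theorem cov_card {Y T : Type} (hT : #T ≤ 𝔠) (ι : T → Y)
    (e : (ℕ → Y × Ultrafilter T) → (ℕ → Bool) → Y × Ultrafilter T) :
    #{p // CovX ι e p} ≤ 𝔠 := by
  refine le_trans ?_ (cov_card_W hT)
  choose c hc using cov_surj ι e
  refine mk_le_of_injective (f := fun p : {p // CovX ι e p} => c p.1 p.2) ?_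
  intro p q hpq
  apply Subtype.ext
  rw [← hc p.1 p.2, ← hc q.1 q.2]
  exact congrArg _ hpq

/-- the order: first the complement of `B`, then `B` reversed -/
noncomputable def covF {X : Type} (B : Set X) (x : X) : X ⊕ₗ Xᵒᵈ :=
  open scoped Classical in
  if x ∈ B then toLex (Sum.inr (OrderDual.toDual x)) else toLex (Sum.inl x)

theorem covF_inj {X : Type} (B : Set X) : Function.Injective (covF B) := by
  intro x y hxy
  unfold covF at hxy
  split_ifs at hxy
  · exact (OrderDual.toDual.injective (Sum.inr.inj (toLex.injective hxy)))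
  · exact absurd (toLex.injective hxy) (by simp)
  · exact absurd (toLex.injective hxy) (by simp)
  · exact Sum.inl.inj (toLex.injective hxy)

theorem cov_minmax {X : Type} [LinearOrder X] [hw : WellFoundedLT X] (B C : Set X)
    (hne : C.Nonempty) (h : C.Infinite → (C ∩ B).Nonempty ∧ (C ∩ Bᶜ).Nonempty) :
    (∃ a ∈ C, ∀ y ∈ C, covF B a ≤ covF B y) ∧ ∃ b ∈ C, ∀ y ∈ C, covF B y ≤ covF B b := by
  have hfA : ∀ x, x ∉ B → covF B x = toLex (Sum.inl x) := fun x hx => if_neg hx
  have hfB : ∀ x, x ∈ B → covF B x = toLex (Sum.inr (OrderDual.toDual x)) :=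
    fun x hx => if_pos hx
  constructor
  · by_cases hCA : (C ∩ Bᶜ).Nonempty
    · obtain ⟨a, ha, hmin⟩ := hw.wf.has_min (C ∩ Bᶜ) hCA
      refine ⟨a, ha.1, ?_⟩
      intro y hy
      by_cases hyB : y ∈ B
      · rw [hfA a ha.2, hfB y hyB]
        exact Sum.Lex.inl_le_inr _ _
      · rw [hfA a ha.2, hfA y hyB, Sum.Lex.inl_le_inl_iff]
        exact not_lt.1 (hmin y ⟨hy, hyB⟩)
    · have hfin : C.Finite := by
        by_contra hinf
        exact hCA (h hinf).2
      obtain ⟨a, ha, hmin⟩ := Set.exists_min_image C (covF B) hfin hne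
      exact ⟨a, ha, fun y hy => hmin y hy⟩
  · by_cases hCB : (C ∩ B).Nonempty
    · obtain ⟨a, ha, hmin⟩ := hw.wf.has_min (C ∩ B) hCB
      refine ⟨a, ha.1, ?_⟩
      intro y hy
      by_cases hyB : y ∈ B
      · rw [hfB a ha.2, hfB y hyB, Sum.Lex.inr_le_inr_iff, OrderDual.toDual_le_toDual]
        exact not_lt.1 (hmin y ⟨hy, hyB⟩)
      · rw [hfB a ha.2, hfA y hyB]
        exact Sum.Lex.inl_le_inr _ _
    · have hfin : C.Finite := by
        by_contra hinf
        exact hCB (h hinf).1
      obtain ⟨a, ha, hmin⟩ := Set.exists_max_image C (covF B) hfin hne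
      exact ⟨a, ha, fun y hy => hmin y hy⟩

/-- a space in which the infinite closed sets meet both parts of a partition is
Staeckel-compact -/
theorem cov_order {X : Type} [TopologicalSpace X] [T2Space X] (B : Set X)
    (h : ∀ C : Set X, IsClosed C → C.Infinite → (C ∩ B).Nonempty ∧ (C ∩ Bᶜ).Nonempty) :
    StackelCompact X := by
  classical
  refine ⟨inferInstance, ?_⟩
  let w : LinearOrder X := linearOrderOfSTO (WellOrderingRel (α := X))
  have hw : @WellFoundedLT X (@LinearOrder.toPartialOrder X w).toLT :=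
    ⟨(WellOrderingRel.isWellOrder (α := X)).wf⟩
  have key := fun C hne hC => @cov_minmax X w hw B C hne hC
  let w2 : LinearOrder (X ⊕ₗ Xᵒᵈ) := inferInstance
  refine ⟨@LinearOrder.lift' X (X ⊕ₗ Xᵒᵈ) w2 (covF B) (covF_inj B), ?_⟩
  intro C hC hne
  obtain ⟨⟨a, ha, ha2⟩, b, hb, hb2⟩ := key C hne (h C hC)
  exact ⟨⟨a, ha, fun y hy => ha2 y hy⟩, b, hb, fun y hy => hb2 y hy⟩

/-- COVER (cites ACC, SDR) -/
theorem cover_pr {Y T : Type} [TopologicalSpace Y] [T2Space Y] (hT : #T ≤ 𝔠) (ι : T → Y)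
    (hcc : ∀ v : ℕ → Y, Function.Injective v → ∃ (w : Ultrafilter ℕ) (y : Y),
      (w : Filter ℕ) ≤ atTop ∧ Tendsto v (w : Filter ℕ) (𝓝 y)) :
    ∃ (X : Type) (_ : TopologicalSpace X) (f : X → Y), StackelCompact X ∧ Continuous f ∧
      Set.range ι ⊆ Set.range f := by
  classical
  -- the choice of accumulation points
  obtain ⟨e, he1, he2⟩ : ∃ e : (ℕ → Y × Ultrafilter T) → (ℕ → Bool) → Y × Ultrafilter T,
      (∀ d, Function.Injective d → (∀ n, Tendsto ι ((d n).2 : Filter T) (𝓝 (d n).1)) →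
        Function.Injective (e d) ∧ ∀ z, e d z ∈ closure (Set.range d)) ∧
      (∀ d, (∀ n, Tendsto ι ((d n).2 : Filter T) (𝓝 (d n).1)) →
        ∀ z, Tendsto ι ((e d z).2 : Filter T) (𝓝 (e d z).1)) := by
    refine ⟨fun d => if h : Function.Injective d ∧
      (∀ n, Tendsto ι ((d n).2 : Filter T) (𝓝 (d n).1)) then
      (acc_pr ι hcc d h.1 h.2).choose else fun _ => d 0, ?_, ?_⟩
    · intro d h1 h2
      simp only
      rw [dif_pos ⟨h1, h2⟩]
      have h3 := (acc_pr ι hcc d h1 h2).choose_spec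
      exact ⟨h3.1, fun z => (h3.2 z).2⟩
    · intro d h2 z
      by_cases h1 : Function.Injective d
      · simp only
        rw [dif_pos ⟨h1, h2⟩]
        exact ((acc_pr ι hcc d h1 h2).choose_spec.2 z).1
      · simp only
        rw [dif_neg (fun h => h1 h.1)]
        exact h2 0
  have hP : ∀ p, CovX ι e p → Tendsto ι (p.2 : Filter T) (𝓝 p.1) := by
    intro p hp
    induction hp with
    | base t =>
      change Tendsto ι (pure t) (𝓝 (ι t))
      exact tendsto_pure_nhds ι t
    | step d hd z ih => exact he2 d ih z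
  have hcard : #{p // CovX ι e p} ≤ 𝔠 := cov_card hT ι e
  -- the selectors
  let I : Type := {d : ℕ → {p // CovX ι e p} // Function.Injective d} × Bool
  have hI : #I ≤ 𝔠 := by
    have h1 : #{d : ℕ → {p // CovX ι e p} // Function.Injective d} ≤ 𝔠 := by
      refine le_trans (mk_subtype_le _) ?_
      have h2 : #(ℕ → {p // CovX ι e p}) = #{p // CovX ι e p} ^ ℵ₀ := by
        rw [← Cardinal.mk_nat, Cardinal.power_def]
      rw [h2, ← continuum_power_aleph0]
      exact Cardinal.power_le_power_right hcard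
    have h3 : #I = #{d : ℕ → {p // CovX ι e p} // Function.Injective d} * #Bool := by
      simp [I]
    rw [h3]
    calc _ ≤ 𝔠 * 𝔠 := by
          refine mul_le_mul' h1 ?_
          rw [mk_bool]
          exact le_trans (le_of_lt (natCast_lt_aleph0 (n := 2))) aleph0_le_continuum
      _ = 𝔠 := continuum_mul_self
  have hinj : ∀ d : {d : ℕ → {p // CovX ι e p} // Function.Injective d},
      Function.Injective (fun n => (d.1 n).1) := fun d => Subtype.val_injective.comp d.2
  have hlim : ∀ d : {d : ℕ → {p // CovX ι e p} // Function.Injective d}, ∀ n,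
      Tendsto ι (((d.1 n).1).2 : Filter T) (𝓝 ((d.1 n).1).1) := fun d n => hP _ (d.1 n).2
  obtain ⟨g, hg1, hg2⟩ := sdr hI (fun i => {x : {p // CovX ι e p} |
    x.1 ∈ Set.range (e (fun n => (i.1.1 n).1))}) (by
      intro i
      have h1 := (he1 _ (hinj i.1) (hlim i.1)).1
      have h2 : #(ℕ → Bool) = 𝔠 := by
        rw [← Cardinal.power_def]
        simp
      rw [← h2]
      refine mk_le_of_injective (f := fun z => (⟨⟨e (fun n => (i.1.1 n).1) z,
        CovX.step _ (fun n => (i.1.1 n).2) z⟩, ⟨z, rfl⟩⟩ :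
        {x : {p // CovX ι e p} | x.1 ∈ Set.range (e (fun n => (i.1.1 n).1))})) ?_
      intro z z' hzz
      apply h1
      exact congrArg (fun x => x.1.1) hzz)
  have hg3 : ∀ i : I, g i ∈ closure (Set.range i.1.1) := by
    intro i
    rw [closure_subtype]
    obtain ⟨z, hz⟩ := hg2 i
    rw [← hz]
    have h1 := (he1 _ (hinj i.1) (hlim i.1)).2 z
    have h2 : Set.range (fun n => (i.1.1 n).1) = (fun x : {p // CovX ι e p} => x.1) ''
        Set.range i.1.1 := by
      rw [← Set.range_comp]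
      rfl
    rw [← h2]
    exact h1
  refine ⟨{p // CovX ι e p}, inferInstance, fun p => p.1.1,
    cov_order (Set.range fun d => g (d, true)) ?_, continuous_fst.comp continuous_subtype_val, ?_⟩
  · intro C hC hinf
    have : Infinite C := hinf.to_subtype
    let q : ℕ ↪ C := Infinite.natEmbedding _
    let d : {d : ℕ → {p // CovX ι e p} // Function.Injective d} :=
      ⟨fun n => (q n).1, Subtype.val_injective.comp q.injective⟩
    have hsub : closure (Set.range d.1) ⊆ C := by
      refine closure_minimal ?_ hC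
      rintro _ ⟨n, rfl⟩
      exact (q n).2
    refine ⟨⟨g (d, true), hsub (hg3 (d, true)), d, rfl⟩, ⟨g (d, false), hsub (hg3 (d, false)), ?_⟩⟩
    rintro ⟨d', hd'⟩
    have := hg1 hd'
    exact absurd (congrArg Prod.snd this) (by simp)
  · rintro _ ⟨t, rfl⟩
    exact ⟨⟨(ι t, pure t), CovX.base t⟩, rfl⟩

end Pool.Agent.Lib_helper25.Stk
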