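import Pool.Agent.Lib_helper25.Stk.AliasA

set_option autoImplicit false

open Set Filter Topology Cardinal

namespace Pool.Agent.Lib_helper25.Stk

theorem FAM_strictLin_swap {r : ℕ → ℕ → Prop} (hr : StrictLin r) :
    StrictLin (fun a b => r b a) :=
  ⟨fun a => hr.irrefl a, fun a b c h h' => hr.trans c b a h' h, fun a b h => hr.total b a h.symm⟩

theorem FAM_noMono_swap {r : ℕ → ℕ → Prop} (hn : NoMono r) : NoMono (fun a b => r b a) :=
  fun s q hq => ⟨(hn s q hq).2, (hn s q hq).1⟩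

theorem FAM_inj {r : ℕ → ℕ → Prop} (hr : StrictLin r) {z : ℕ → ℕ}
    (hz : ∀ n, r (z n) (z (n + 1))) : Function.Injective z := by
  have h1 : ∀ m k, r (z m) (z (m + k + 1)) := by
    intro m k
    induction k with
    | zero => exact hz m
    | succ k ih => exact hr.trans _ _ _ ih (hz (m + k + 1))
  have h2 : ∀ m n, m < n → z m ≠ z n := by
    intro m n hmn h
    have h3 := h1 m (n - m - 1)
    rw [show m + (n - m - 1) + 1 = n by omega, h] at h3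
    exact hr.irrefl _ h3
  intro m n hmn
  by_contra hne
  rcases Nat.lt_or_gt_of_ne hne with h | h
  · exact h2 _ _ h hmn
  · exact h2 _ _ h hmn.symm

/-- the good points -/
theorem FAM_card {r : ℕ → ℕ → Prop} (hr : StrictLin r) (hn : NoMono r) {G : Set ℕ}
    {V : Set (ℕ → Bool)} (hV : IsOpen V) (hne : V.Nonempty) (hG : V ⊆ closure (loc '' G)) :
    𝔠 ≤ #(↥{x : ℕ → Bool | x ∉ Set.range loc ∧ ∃ z : ℕ → ℕ, (∀ n, z n ∈ G) ∧
      (∀ n, r (z (n + 1)) (z n)) ∧ Tendsto (fun n => loc (z n)) atTop (𝓝 x)}) := by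
  have h1 := lemD hr hn hV hG
  have h2 : IsMeagre (Set.range loc) := CARD_countable_meagre (Set.countable_range _)
  have h3 := card_comeagre hV hne (h1.union h2)
  refine h3.trans (Cardinal.mk_le_mk_of_subset ?_)
  rintro x ⟨hxV, hx⟩
  have hx1 : x ∉ Set.range loc := fun h => hx (Or.inr h)
  refine ⟨hx1, ?_⟩
  by_contra hc
  exact hx (Or.inl ⟨hxV, hx1, hc⟩)

theorem fam_pr : ∃ D : Fam GG,
    (∀ (ξ : GG) (n : ℕ), ξ.1 (D.Z ξ false (n + 1)) (D.Z ξ false n)) ∧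
    (∀ (ξ : GG) (n : ℕ), ξ.1 (D.Z ξ true n) (D.Z ξ true (n + 1))) ∧
    ∀ ξ : GG, ξ.1 (D.Z ξ false 0) (D.Z ξ true 0) := by
  classical
  have h1 : ∀ ξ : GG, ∃ c, ∃ V V' : Set (ℕ → Bool), IsOpen V ∧ V.Nonempty ∧ IsOpen V' ∧
      V'.Nonempty ∧ V ⊆ closure (loc '' {z | ξ.1 z c}) ∧
      V' ⊆ closure (loc '' {z | ξ.1 c z}) := fun ξ => lemE ξ.2.1 ξ.2.2
  choose c V V' hV hVn hV' hVn' hG hG' using h1
  let P : GG × Bool → Set (ℕ → Bool) := fun i =>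
    if i.2 then {x : ℕ → Bool | x ∉ Set.range loc ∧ ∃ z : ℕ → ℕ,
      (∀ n, z n ∈ {z | i.1.1 (c i.1) z}) ∧
      (∀ n, i.1.1 (z n) (z (n + 1))) ∧ Tendsto (fun n => loc (z n)) atTop (𝓝 x)}
    else {x : ℕ → Bool | x ∉ Set.range loc ∧ ∃ z : ℕ → ℕ,
      (∀ n, z n ∈ {z | i.1.1 z (c i.1)}) ∧
      (∀ n, i.1.1 (z (n + 1)) (z n)) ∧ Tendsto (fun n => loc (z n)) atTop (𝓝 x)}
  have hP : ∀ i, 𝔠 ≤ #(↥(P i)) := by
    rintro ⟨ξ, b⟩
    cases b
    · simp only [P]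
      rw [if_neg Bool.false_ne_true]
      exact FAM_card ξ.2.1 ξ.2.2 (hV ξ) (hVn ξ) (hG ξ)
    · simp only [P]
      rw [if_pos trivial]
      exact FAM_card (FAM_strictLin_swap ξ.2.1) (FAM_noMono_swap ξ.2.2) (hV' ξ) (hVn' ξ) (hG' ξ)
  have hI : #(GG × Bool) ≤ 𝔠 := by
    rw [Cardinal.mk_prod, Cardinal.lift_id, Cardinal.lift_id]
    have : #Bool ≤ 𝔠 := by
      rw [Cardinal.mk_bool]
      exact (Cardinal.nat_lt_continuum 2).le
    calc #GG * #Bool ≤ 𝔠 * 𝔠 := mul_le_mul' card_GG this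
      _ = 𝔠 := Cardinal.continuum_mul_self
  obtain ⟨g, hg, hgP⟩ := sdr hI P hP
  have hf : ∀ ξ : GG, g (ξ, false) ∉ Set.range loc ∧ ∃ z : ℕ → ℕ,
      (∀ n, ξ.1 (z n) (c ξ)) ∧ (∀ n, ξ.1 (z (n + 1)) (z n)) ∧
      Tendsto (fun n => loc (z n)) atTop (𝓝 (g (ξ, false))) := by
    intro ξ
    have := hgP (ξ, false)
    simp only [P] at this
    rw [if_neg Bool.false_ne_true] at this
    exact this
  have ht : ∀ ξ : GG, g (ξ, true) ∉ Set.range loc ∧ ∃ z : ℕ → ℕ,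
      (∀ n, ξ.1 (c ξ) (z n)) ∧ (∀ n, ξ.1 (z n) (z (n + 1))) ∧
      Tendsto (fun n => loc (z n)) atTop (𝓝 (g (ξ, true))) := by
    intro ξ
    have := hgP (ξ, true)
    simp only [P] at this
    rw [if_pos trivial] at this
    exact this
  choose hf0 zf hf1 hf2 hf3 using hf
  choose ht0 zt ht1 ht2 ht3 using ht
  refine ⟨⟨fun ξ b => g (ξ, b), fun ξ b => if b then zt ξ else zf ξ, ?_, ?_, ?_, ?_⟩, ?_, ?_, ?_⟩
  · intro ξ b
    cases b
    · exact hf0 ξ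
    · exact ht0 ξ
  · intro ξ b ξ' b' h
    have := hg h
    rw [Prod.mk.injEq] at this
    exact this
  · intro ξ b
    cases b
    · exact FAM_inj (FAM_strictLin_swap ξ.2.1) (hf2 ξ)
    · exact FAM_inj ξ.2.1 (ht2 ξ)
  · intro ξ b
    cases b
    · exact hf3 ξ
    · exact ht3 ξ
  · intro ξ n
    exact hf2 ξ n
  · intro ξ n
    exact ht2 ξ n
  · intro ξ
    exact ξ.2.1.trans _ _ _ (hf1 ξ 0) (ht1 ξ 0)

end Pool.Agent.Lib_helper25.Stk
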