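import Pool.Agent.Lib_helper25.Stk.AliasA

set_option autoImplicit false

open Set Filter Topology Cardinal

namespace Pool.Agent.Lib_helper25.Stk

section
variable {G : Type} (D : Fam G)

theorem yt2_flat_mono {S S' : Set (ℕ ⊕ G)} {F F' : G → ℕ} (hS : S ⊆ S')
    (hF : ∀ ξ, F' ξ ≤ F ξ) : flat D S F ⊆ flat D S' F' := by
  rintro k (hk | ⟨ξ, b, n, h1, h2, h3⟩)
  · exact Or.inl (hS hk)
  · exact Or.inr ⟨ξ, b, n, hS h1, (hF ξ).trans h2, h3⟩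

theorem yt2_good_mono {S S' : Set (ℕ ⊕ G)} (hS : S ⊆ S') (h : Good D S') : Good D S where
  ctbl := h.ctbl.mono fun _ hξ => hS hξ
  cd := by
    obtain ⟨F, hF⟩ := h.cd
    exact ⟨F, cd_mono hF (yt2_flat_mono D hS fun _ => le_rfl)⟩
  fin := fun ξ b => (h.fin ξ b).subset fun _ hn => hS hn

theorem yt2_meet {ξ ξ' : G} {b b' : Bool} (h : D.β ξ b ≠ D.β ξ' b') :
    {n | D.Z ξ b n ∈ Set.range (D.Z ξ' b')}.Finite := by
  have hne : ∃ m, ¬ Ag (D.β ξ b) (D.β ξ' b') m := by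
    obtain ⟨i, hi⟩ := Function.ne_iff.1 h
    exact ⟨i + 1, fun hag => hi (hag i (Nat.lt_succ_self i))⟩
  obtain ⟨m, hm⟩ := hne
  obtain ⟨N, hN⟩ := eventually_atTop.1 (tendsto_ag.1 (D.hlim ξ b) m)
  obtain ⟨N', hN'⟩ := eventually_atTop.1 (tendsto_ag.1 (D.hlim ξ' b') m)
  have h1 : (D.Z ξ b ⁻¹' (D.Z ξ' b' '' {n | n < N'})).Finite :=
    ((Set.finite_lt_nat N').image _).preimage ((D.hZ ξ b).injOn)
  refine ((Set.finite_lt_nat N).union h1).subset ?_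
  rintro n ⟨n', hn'⟩
  rcases Nat.lt_or_ge n N with h2 | h2
  · exact Or.inl h2
  · right
    rcases Nat.lt_or_ge n' N' with h3 | h3
    · exact ⟨n', h3, hn'⟩
    · exfalso
      have h4 := hN n h2
      have h5 := hN' n' h3
      rw [hn'] at h5
      exact hm (ag_trans (ag_symm h4) h5)

/-- separation of two disjoint good sets -/
theorem yt2_sep {S S' : Set (ℕ ⊕ G)} (hS : Good D S) (hS' : Good D S') (hd : Disjoint S S') :
    ∃ O O', TOpen D O ∧ TOpen D O' ∧ S ⊆ O ∧ S' ⊆ O' ∧ Disjoint O O' := by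
  classical
  obtain ⟨F, hF⟩ := hS.cd
  obtain ⟨F', hF'⟩ := hS'.cd
  set K : Set G := {ξ | Sum.inr ξ ∈ S} ∪ {ξ | Sum.inr ξ ∈ S'} with hK
  have hKc : K.Countable := hS.ctbl.union hS'.ctbl
  obtain ⟨κ, hκ⟩ := Set.countable_iff_exists_injOn.1 hKc
  have hlow : ∀ ξ, {ξ' | ξ' ∈ K ∧ κ ξ' < κ ξ}.Finite := by
    intro ξ
    refine Set.Finite.of_finite_image (f := κ) ((Set.finite_lt_nat (κ ξ)).subset ?_)
      (hκ.mono fun _ h => h.1)
    rintro _ ⟨ξ', h, rfl⟩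
    exact h.2
  -- the bad indices
  have hbad : ∀ ξ b, ({n | ∃ ξ' b', ξ' ∈ K ∧ κ ξ' < κ ξ ∧
      D.Z ξ b n ∈ Set.range (D.Z ξ' b')} ∪ {n | Sum.inl (D.Z ξ b n) ∈ S} ∪
      {n | Sum.inl (D.Z ξ b n) ∈ S'}).Finite := by
    intro ξ b
    refine Set.Finite.union (Set.Finite.union ?_ (hS.fin ξ b)) (hS'.fin ξ b)
    have h1 : {n | ∃ ξ' b', ξ' ∈ K ∧ κ ξ' < κ ξ ∧ D.Z ξ b n ∈ Set.range (D.Z ξ' b')} ⊆
        ⋃ ξ' ∈ {ξ' | ξ' ∈ K ∧ κ ξ' < κ ξ}, ⋃ b' ∈ (Set.univ : Set Bool),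
          {n | D.Z ξ b n ∈ Set.range (D.Z ξ' b')} := by
      rintro n ⟨ξ', b', h1, h2, h3⟩
      simp only [mem_iUnion]
      exact ⟨ξ', ⟨h1, h2⟩, b', trivial, h3⟩
    refine Set.Finite.subset ((hlow ξ).biUnion fun ξ' hξ' => Set.finite_univ.biUnion
      fun b' _ => yt2_meet D ?_) h1
    intro heq
    have h2 := (D.hinj _ _ _ _ heq).1
    rw [h2] at hξ'
    exact lt_irrefl _ hξ'.2
  have hbound : ∀ ξ, ∃ N, F ξ ≤ N ∧ F' ξ ≤ N ∧ ∀ b, ∀ n, N ≤ n →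
      (∀ ξ' b', ξ' ∈ K → κ ξ' < κ ξ → D.Z ξ b n ∉ Set.range (D.Z ξ' b')) ∧
      Sum.inl (D.Z ξ b n) ∉ S ∧ Sum.inl (D.Z ξ b n) ∉ S' := by
    intro ξ
    have h1 : ∀ b, ∃ N, ∀ n, N ≤ n → n ∉ ({n | ∃ ξ' b', ξ' ∈ K ∧ κ ξ' < κ ξ ∧
      D.Z ξ b n ∈ Set.range (D.Z ξ' b')} ∪ {n | Sum.inl (D.Z ξ b n) ∈ S} ∪
      {n | Sum.inl (D.Z ξ b n) ∈ S'}) := by
      intro b
      obtain ⟨N, hN⟩ := (hbad ξ b).bddAbove
      exact ⟨N + 1, fun n hn hmem => by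
        have := hN hmem
        omega⟩
    choose N hN using h1
    refine ⟨max (max (F ξ) (F' ξ)) (max (N true) (N false)),
      (le_max_left _ _).trans (le_max_left _ _), (le_max_right _ _).trans (le_max_left _ _), ?_⟩
    intro b n hn
    have hNb : N b ≤ n := by
      cases b
      · exact ((le_max_right _ _).trans (le_max_right _ _)).trans hn
      · exact ((le_max_left _ _).trans (le_max_right _ _)).trans hn
    have h2 := hN b n hNb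
    simp only [mem_union, not_or] at h2
    refine ⟨fun ξ' b' h3 h4 h5 => h2.1.1 ⟨ξ', b', h3, h4, h5⟩, h2.1.2, h2.2⟩
  choose F'' hF1 hF2 hF3 using hbound
  have hcd : CD (flat D S F'') := cd_mono hF (yt2_flat_mono D Subset.rfl hF1)
  have hcd' : CD (flat D S' F'') := cd_mono hF' (yt2_flat_mono D Subset.rfl hF2)
  have hdis : Disjoint (flat D S F'') (flat D S' F'') := by
    rw [Set.disjoint_left]
    rintro k (hk | ⟨ξ, b, n, h1, h2, rfl⟩) (hk' | ⟨ξ', b', n', h1', h2', h3'⟩)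
    · exact Set.disjoint_left.1 hd hk hk'
    · rw [← h3'] at hk
      exact (hF3 ξ' b' n' h2').2.1 hk
    · exact (hF3 ξ b n h2).2.2 hk'
    · have hne : ξ ≠ ξ' := by
        rintro rfl
        exact Set.disjoint_left.1 hd h1 h1'
      have hκne : κ ξ ≠ κ ξ' := fun h => hne (hκ (Or.inl h1) (Or.inr h1') h)
      rcases lt_or_gt_of_ne hκne with h | h
      · refine (hF3 ξ' b' n' h2').1 ξ b (Or.inl h1) h ?_
        rw [h3']
        exact Set.mem_range_self _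
      · refine (hF3 ξ b n h2).1 ξ' b' (Or.inr h1') h ?_
        rw [← h3']
        exact Set.mem_range_self _
  obtain ⟨U, V, hU, hV, hAU, hBV, hUV⟩ := norm_pr hcd hcd' hdis
  refine ⟨{t | (∃ k ∈ U, t = Sum.inl k) ∨ (∃ ξ, t = Sum.inr ξ ∧ Sum.inr ξ ∈ S)},
    {t | (∃ k ∈ V, t = Sum.inl k) ∨ (∃ ξ, t = Sum.inr ξ ∧ Sum.inr ξ ∈ S')}, ?_, ?_, ?_, ?_, ?_⟩
  · constructor
    · have : {k | Sum.inl k ∈ {t : ℕ ⊕ G | (∃ k ∈ U, t = Sum.inl k) ∨
          (∃ ξ, t = Sum.inr ξ ∧ Sum.inr ξ ∈ S)}} = U := by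
        ext k
        simp
      rw [this]
      exact hU
    · intro ξ hξ b
      have hξS : Sum.inr ξ ∈ S := by simpa using hξ
      refine eventually_atTop.2 ⟨F'' ξ, fun n hn => Or.inl ⟨_, hAU ?_, rfl⟩⟩
      exact Or.inr ⟨ξ, b, n, hξS, hn, rfl⟩
  · constructor
    · have : {k | Sum.inl k ∈ {t : ℕ ⊕ G | (∃ k ∈ V, t = Sum.inl k) ∨
          (∃ ξ, t = Sum.inr ξ ∧ Sum.inr ξ ∈ S')}} = V := by
        ext k
        simp
      rw [this]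
      exact hV
    · intro ξ hξ b
      have hξS : Sum.inr ξ ∈ S' := by simpa using hξ
      refine eventually_atTop.2 ⟨F'' ξ, fun n hn => Or.inl ⟨_, hBV ?_, rfl⟩⟩
      exact Or.inr ⟨ξ, b, n, hξS, hn, rfl⟩
  · rintro (k | ξ) ht
    · exact Or.inl ⟨k, hAU (Or.inl ht), rfl⟩
    · exact Or.inr ⟨ξ, rfl, ht⟩
  · rintro (k | ξ) ht
    · exact Or.inl ⟨k, hBV (Or.inl ht), rfl⟩
    · exact Or.inr ⟨ξ, rfl, ht⟩
  · rw [Set.disjoint_left]
    rintro t (⟨k, hk, rfl⟩ | ⟨ξ, rfl, hξ⟩) (⟨k', hk', h⟩ | ⟨ξ', h, hξ'⟩)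
    · rw [Sum.inl.inj h] at hk
      exact Set.disjoint_left.1 hUV hk hk'
    · exact absurd h (by simp)
    · exact absurd h (by simp)
    · rw [Sum.inr.inj h] at hξ
      exact Set.disjoint_left.1 hd hξ hξ'

/-- YT2 -/
theorem yt2_pr : T2Space (Yt D) := by
  constructor
  intro v v' hne
  have hne' : v.1 ≠ v'.1 := fun h => hne (Subtype.ext h)
  obtain ⟨E, hE, hE'⟩ : ∃ E, E ∈ v.1 ∧ Eᶜ ∈ v'.1 := by
    by_contra hcon
    push Not at hcon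
    refine hne' (Ultrafilter.eq_of_le ?_).symm
    intro E hE
    exact Ultrafilter.compl_notMem_iff.1 (hcon E hE)
  obtain ⟨S, hSv, hS⟩ := v.2
  obtain ⟨S', hSv', hS'⟩ := v'.2
  have hd : Disjoint (S ∩ E) (S' ∩ Eᶜ) :=
    Set.disjoint_left.2 fun x hx hx' => hx'.2 hx.2
  obtain ⟨O, O', hO, hO', hSO, hSO', hdO⟩ := yt2_sep D
    (yt2_good_mono D inter_subset_left hS) (yt2_good_mono D inter_subset_left hS') hd
  refine ⟨{v | O ∈ v.1}, {v | O' ∈ v.1}, isOpen_basic D hO, isOpen_basic D hO',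
    Filter.mem_of_superset (Filter.inter_mem hSv hE) hSO,
    Filter.mem_of_superset (Filter.inter_mem hSv' hE') hSO', ?_⟩
  rw [Set.disjoint_left]
  intro u hu hu'
  have h1 : O ∩ O' ∈ u.1 := Filter.inter_mem hu hu'
  rw [Set.disjoint_iff_inter_eq_empty.1 hdO] at h1
  exact u.1.empty_notMem h1

end

end Pool.Agent.Lib_helper25.Stk
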