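import Pool.Agent.Lib_helper25.Stk.AliasD
import Pool.Agent.Lib_helper25.Stk.CC
import Pool.Agent.Lib_helper25.Stk.YT2
import Pool.Agent.Lib_helper25.Stk.FAM
import Pool.Agent.Lib_helper25.Stk.COVER

set_option autoImplicit false

open Set Filter Topology Cardinal

namespace Pool.Agent.Lib_helper25.Stk

alias cc := cc_pr
alias yt2 := yt2_pr
alias fam := fam_pr
alias cover := cover_pr

end Pool.Agent.Lib_helper25.Stk
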