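import Pool.Agent.Lib_helper25.Stk.Defs

set_option autoImplicit false

open Set Filter Topology Cardinal

namespace Pool.Agent.Lib_helper25.Stk

/-! Basic facts.  (helper25 proves this file; cite freely.) -/

theorem loc_inj : Function.Injective loc := by
  intro a b h
  exact Nat.eq_of_testBit_eq fun i => congrFun h i

theorem loc_dense (x : ℕ → Bool) (m : ℕ) : ∃ t, Ag (loc t) x m := by
  refine ⟨Nat.ofBits (fun i : Fin m => x i), fun i hi => ?_⟩
  simp only [loc]
  rw [Nat.testBit_ofBits_lt _ _ hi]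

theorem kap_inf (t m : ℕ) : ∃ j, m ≤ j ∧ kap j = t := by
  refine ⟨Nat.pair t m, Nat.right_le_pair t m, ?_⟩
  simp [kap]

theorem ag_refl (x : ℕ → Bool) (m : ℕ) : Ag x x m := fun _ _ => rfl

theorem ag_symm {x y : ℕ → Bool} {m : ℕ} (h : Ag x y m) : Ag y x m := fun i hi => (h i hi).symm

theorem ag_trans {x y z : ℕ → Bool} {m : ℕ} (h : Ag x y m) (h' : Ag y z m) : Ag x z m :=
  fun i hi => (h i hi).trans (h' i hi)

theorem ag_mono {x y : ℕ → Bool} {m n : ℕ} (h : Ag x y m) (hn : n ≤ m) : Ag x y n :=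
  fun i hi => h i (lt_of_lt_of_le hi hn)

theorem ag_open (x : ℕ → Bool) (m : ℕ) : IsOpen {y | Ag y x m} := by
  have : {y | Ag y x m} = PiNat.cylinder (E := fun _ => Bool) x m := by
    ext y
    simp [Ag, PiNat.cylinder]
  rw [this]
  exact PiNat.isOpen_cylinder _ x m

theorem ag_closed (x : ℕ → Bool) (m : ℕ) : IsClosed {y | Ag y x m} := by
  have : {y | Ag y x m} = ⋂ i, ⋂ (_ : i < m), {y : ℕ → Bool | y i = x i} := by
    ext y
    simp [Ag]
  rw [this]
  refine isClosed_iInter fun i => isClosed_iInter fun _ => ?_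
  exact isClosed_eq (continuous_apply i) continuous_const

theorem ag_basis {V : Set (ℕ → Bool)} (hV : IsOpen V) {x : ℕ → Bool} (hx : x ∈ V) :
    ∃ m, ∀ y, Ag y x m → y ∈ V := by
  obtain ⟨s, ⟨z, n, rfl⟩, hxs, hsV⟩ :=
    (PiNat.isTopologicalBasis_cylinders (fun _ => Bool)).exists_subset_of_mem_open hx hV
  refine ⟨n, fun y hy => hsV ?_⟩
  intro i hi
  exact (hy i hi).trans (hxs i hi)

theorem tendsto_ag {α : Type*} {u : α → ℕ → Bool} {f : Filter α} {x : ℕ → Bool} :
    Tendsto u f (𝓝 x) ↔ ∀ m, ∀ᶠ a in f, Ag (u a) x m := by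
  rw [tendsto_nhds]
  constructor
  · intro h m
    exact h _ (ag_open x m) (ag_refl x m)
  · intro h V hV hx
    obtain ⟨m, hm⟩ := ag_basis hV hx
    exact Filter.mem_of_superset (h m) fun a ha => hm _ ha

theorem ann_ag (s t : ℕ) : Ag (loc t) (loc s) (ann s t) := by
  intro i hi
  by_contra h
  exact (Nat.sInf_le (s := {i | loc t i ≠ loc s i}) h).not_gt hi

theorem ann_ne {s t : ℕ} (h : t ≠ s) : loc t (ann s t) ≠ loc s (ann s t) := by
  have : {i | loc t i ≠ loc s i}.Nonempty := by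
    by_contra hne
    rw [Set.not_nonempty_iff_eq_empty] at hne
    apply h
    apply loc_inj
    funext i
    by_contra hi
    have : i ∈ {i | loc t i ≠ loc s i} := hi
    rw [hne] at this
    exact this
  exact Nat.sInf_mem this

theorem ag_iff_le_ann {s t : ℕ} (h : t ≠ s) (m : ℕ) : Ag (loc t) (loc s) m ↔ m ≤ ann s t := by
  constructor
  · intro h1
    by_contra h2
    exact ann_ne h (h1 _ (not_le.1 h2))
  · intro h1
    exact ag_mono (ann_ag s t) h1

/-- how to enter the annulus `j` of `s` -/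
theorem ann_eq_of {s t' j : ℕ} {x : ℕ → Bool} (h1 : Ag x (loc s) j) (h2 : x j ≠ loc s j)
    (h : Ag (loc t') x (j + 1)) : t' ≠ s ∧ ann s t' = j := by
  have hne : loc t' j ≠ loc s j := by
    rw [h j (Nat.lt_succ_self j)]
    exact h2
  have h3 : t' ≠ s := by
    rintro rfl
    exact hne rfl
  refine ⟨h3, le_antisymm ?_ ?_⟩
  · exact Nat.sInf_le hne
  · exact (ag_iff_le_ann h3 j).1 (ag_trans (ag_mono h (Nat.le_succ j)) h1)

/-- annuli are open -/
theorem ann_congr {s t t' : ℕ} (h : t ≠ s) (h' : Ag (loc t') (loc t) (ann s t + 1)) :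
    t' ≠ s ∧ ann s t' = ann s t :=
  ann_eq_of (ann_ag s t) (ann_ne h) h'

theorem lt_trans' {s a b c : ℕ} (h : Lt s a b) (h' : Lt s b c) : Lt s a c := h.trans h'

theorem lt_ann {s t t' : ℕ} (h : Lt s t t') : t ≠ s ∧ t' ≠ s ∧ ann s t < ann s t' := by
  induction h with
  | single h => exact ⟨h.2.1, h.2.2.1, h.2.2.2⟩
  | tail _ h ih => exact ⟨ih.1, h.2.2.1, ih.2.2.trans h.2.2.2⟩

/-- `Lt s t t'` depends on `t'` only through its annulus -/
theorem lt_congr {s t t' t'' : ℕ} (h : Lt s t t') (h1 : t'' ≠ s) (h2 : ann s t'' = ann s t') :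
    Lt s t t'' := by
  cases h with
  | single h => exact Relation.TransGen.single ⟨by rw [h2]; exact h.1, h.2.1, h1, by rw [h2]; exact h.2.2.2⟩
  | tail h h' => exact Relation.TransGen.tail h ⟨by rw [h2]; exact h'.1, h'.2.1, h1, by rw [h2]; exact h'.2.2.2⟩

theorem rl_unique {s t t' u : ℕ} (h : Rl s t u) (h' : Rl s t' u) : t = t' := h.1.symm.trans h'.1

theorem lt_comp {s t t' u : ℕ} (h : Lt s t u) (h' : Lt s t' u) :
    t = t' ∨ Lt s t t' ∨ Lt s t' t := by
  induction h with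
  | single h =>
    cases h' with
    | single h' => exact Or.inl (rl_unique h h')
    | tail h1 h' =>
      have := rl_unique h h'
      subst this
      exact Or.inr (Or.inr h1)
  | tail h1 h ih =>
    cases h' with
    | single h' =>
      have := rl_unique h h'
      subst this
      exact Or.inr (Or.inl h1)
    | tail h1' h' =>
      have := rl_unique h h'
      subst this
      exact ih h1'

theorem lt_step {s t t' : ℕ} (h : t ≠ s) (h' : t' ≠ s) (hk : kap (ann s t') = t)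
    (hl : ann s t < ann s t') : Lt s t t' := Relation.TransGen.single ⟨hk, h, h', hl⟩

theorem ch_lt {s : ℕ} {q : ℕ → ℕ} (h : Ch s q) {m n : ℕ} (hmn : m < n) : Lt s (q m) (q n) := by
  induction hmn with
  | refl => exact h m
  | step _ ih => exact lt_trans' ih (h _)

theorem ch_sub {s : ℕ} {q : ℕ → ℕ} (h : Ch s q) {φ : ℕ → ℕ} (hφ : StrictMono φ) :
    Ch s (fun n => q (φ n)) := fun n => ch_lt h (hφ (Nat.lt_succ_self n))

theorem ch_ne {s : ℕ} {q : ℕ → ℕ} (h : Ch s q) (n : ℕ) : q n ≠ s := (lt_ann (h n)).1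

theorem ch_ann {s : ℕ} {q : ℕ → ℕ} (h : Ch s q) : StrictMono fun n => ann s (q n) :=
  strictMono_nat_of_lt_succ fun n => (lt_ann (h n)).2.2

theorem ch_inj {s : ℕ} {q : ℕ → ℕ} (h : Ch s q) : Function.Injective q := by
  intro a b hab
  apply (ch_ann h).injective
  simp only [hab]

theorem ch_loc {s : ℕ} {q : ℕ → ℕ} (h : Ch s q) (m : ℕ) :
    ∀ᶠ n in atTop, Ag (loc (q n)) (loc s) m := by
  filter_upwards [eventually_ge_atTop m] with n hn
  exact (ag_iff_le_ann (ch_ne h n) m).2 (hn.trans ((ch_ann h).id_le n))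

/-- an infinite set of pairwise comparable elements of the forest contains a chain -/
theorem ch_of_infinite {s : ℕ} {B : Set ℕ} (hB : B.Infinite) (hs : s ∉ B)
    (hc : ∀ a ∈ B, ∀ b ∈ B, a ≠ b → Lt s a b ∨ Lt s b a) : ∃ q, Ch s q ∧ ∀ n, q n ∈ B := by
  have hstep : ∀ a ∈ B, ∃ b ∈ B, Lt s a b := by
    intro a ha
    by_contra hno
    push Not at hno
    apply hB
    have hfin : Set.Finite (Set.Iic (ann s a)) := Set.finite_Iic _
    refine Set.Finite.of_finite_image (f := ann s) (hfin.subset ?_) ?_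
    · rintro _ ⟨b, hb, rfl⟩
      by_cases hab : a = b
      · subst hab
        exact Set.mem_Iic.2 le_rfl
      · rcases hc a ha b hb hab with h | h
        · exact (hno b hb h).elim
        · exact (lt_ann h).2.2.le
    · intro b hb c hc' hbc
      by_contra hne
      rcases hc b hb c hc' hne with h | h
      · exact (lt_ann h).2.2.ne hbc
      · exact (lt_ann h).2.2.ne hbc.symm
  choose! g hg1 hg2 using hstep
  obtain ⟨a, ha⟩ := hB.nonempty
  have hmem : ∀ n, g^[n] a ∈ B := by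
    intro n
    induction n with
    | zero => exact ha
    | succ n ih => rw [Function.iterate_succ_apply']; exact hg1 _ ih
  refine ⟨fun n => g^[n] a, fun n => ?_, hmem⟩
  simp only [Function.iterate_succ_apply']
  exact hg2 _ (hmem n)

theorem mopen_inter {A B : Set ℕ} (hA : MOpen A) (hB : MOpen B) : MOpen (A ∩ B) := by
  intro t ht
  obtain ⟨m, hm⟩ := hA t ht.1
  obtain ⟨n, hn⟩ := hB t ht.2
  exact ⟨max m n, fun t' h => ⟨hm t' (ag_mono h (le_max_left _ _)),
    hn t' (ag_mono h (le_max_right _ _))⟩⟩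

theorem mopen_union {A B : Set ℕ} (hA : MOpen A) (hB : MOpen B) : MOpen (A ∪ B) := by
  intro t ht
  rcases ht with ht | ht
  · obtain ⟨m, hm⟩ := hA t ht
    exact ⟨m, fun t' h => Or.inl (hm t' h)⟩
  · obtain ⟨m, hm⟩ := hB t ht
    exact ⟨m, fun t' h => Or.inr (hm t' h)⟩

theorem mopen_iUnion {ι : Sort*} {A : ι → Set ℕ} (hA : ∀ i, MOpen (A i)) : MOpen (⋃ i, A i) := by
  intro t ht
  obtain ⟨i, hi⟩ := Set.mem_iUnion.1 ht
  obtain ⟨m, hm⟩ := hA i t hi
  exact ⟨m, fun t' h => Set.mem_iUnion.2 ⟨i, hm t' h⟩⟩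

theorem mopen_ag (x : ℕ → Bool) (m : ℕ) : MOpen {t | Ag (loc t) x m} :=
  fun _ ht => ⟨m, fun _ h => ag_trans h ht⟩

theorem mopen_not_ag (x : ℕ → Bool) (m : ℕ) : MOpen {t | ¬ Ag (loc t) x m} :=
  fun _ ht => ⟨m, fun _ h h' => ht (ag_trans (ag_symm h) h')⟩

theorem small_mono {s : ℕ} {A B : Set ℕ} (hB : Small s B) (h : A ⊆ B) : Small s A := by
  obtain ⟨W, h1, h2, h3⟩ := hB
  exact ⟨W, h1, h.trans h2, h3⟩

theorem small_empty (s : ℕ) : Small s ∅ :=
  ⟨∅, fun _ ht => ht.elim, fun _ h => h, fun h => h, fun _ _ => ⟨0, fun h => h⟩⟩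

theorem small_union {s : ℕ} {A B : Set ℕ} (hA : Small s A) (hB : Small s B) :
    Small s (A ∪ B) := by
  obtain ⟨W, h1, h2, h3, h4⟩ := hA
  obtain ⟨W', h1', h2', h3', h4'⟩ := hB
  refine ⟨W ∪ W', mopen_union h1 h1', Set.union_subset_union h2 h2', ?_, fun q hq => ?_⟩
  · rintro (h | h)
    · exact h3 h
    · exact h3' h
  · by_contra hno
    push Not at hno
    by_cases hf : ∃ᶠ n in atTop, q n ∈ W
    · obtain ⟨φ, hφ, hφ'⟩ := Filter.extraction_of_frequently_atTop hf
      obtain ⟨n, hn⟩ := h4 _ (ch_sub hq hφ)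
      exact hn (hφ' n)
    · rw [Filter.not_frequently] at hf
      obtain ⟨N, hN⟩ := Filter.eventually_atTop.1 hf
      obtain ⟨n, hn⟩ := h4' (fun n => q (n + N)) (ch_sub hq (φ := fun n => n + N)
        (fun a b h => Nat.add_lt_add_right h N))
      exact hn ((hno (n + N)).resolve_left (hN _ (Nat.le_add_left _ _)))

theorem small_biUnion {ι : Type*} {s : ℕ} {I : Set ι} (hI : I.Finite) {A : ι → Set ℕ}
    (hA : ∀ i ∈ I, Small s (A i)) : Small s (⋃ i ∈ I, A i) := by
  induction I, hI using Set.Finite.induction_on with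
  | empty => simpa using small_empty s
  | insert _ _ ih =>
    rw [Set.biUnion_insert]
    exact small_union (hA _ (Set.mem_insert _ _)) (ih fun i hi => hA i (Set.mem_insert_of_mem _ hi))

theorem small_far {s : ℕ} {A : Set ℕ} (m : ℕ) (h : ∀ t ∈ A, ¬ Ag (loc t) (loc s) m) :
    Small s A := by
  refine ⟨{t | ¬ Ag (loc t) (loc s) m}, mopen_not_ag _ m, h, fun h' => h' (ag_refl _ _),
    fun q hq => ?_⟩
  obtain ⟨n, hn⟩ := (ch_loc hq m).exists
  exact ⟨n, fun h' => h' hn⟩

theorem small_sing {s t : ℕ} (h : t ≠ s) : Small s {t} := by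
  refine small_far (ann s t + 1) ?_
  rintro _ rfl h'
  exact ann_ne h (h' _ (Nat.lt_succ_self _))

theorem small_finite {s : ℕ} {A : Set ℕ} (hA : A.Finite) (hs : s ∉ A) : Small s A := by
  have : A = ⋃ i ∈ A, {i} := by simp
  rw [this]
  refine small_biUnion hA fun i hi => small_sing ?_
  rintro rfl
  exact hs hi

theorem small_not_mem {s : ℕ} {A : Set ℕ} (h : Small s A) : s ∉ A := by
  obtain ⟨W, _, h2, h3, _⟩ := h
  exact fun h' => h3 (h2 h')

/-- a small set contains only finitely many terms of a chain -/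
theorem small_ch {s : ℕ} {A : Set ℕ} (h : Small s A) {q : ℕ → ℕ} (hq : Ch s q) :
    ∀ᶠ n in atTop, q n ∉ A := by
  by_contra hf
  obtain ⟨W, _, h2, h3, h4⟩ := h
  have hf' : ∃ᶠ n in atTop, q n ∈ A := by
    intro h5
    exact hf h5
  obtain ⟨φ, hφ, hφ'⟩ := Filter.extraction_of_frequently_atTop hf'
  obtain ⟨n, hn⟩ := h4 _ (ch_sub hq hφ)
  exact hn (h2 (hφ' n))

theorem cd_mono {A B : Set ℕ} (hB : CD B) (h : A ⊆ B) : CD A :=
  fun s => small_mono (hB s) (Set.sdiff_subset_sdiff_left h)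

theorem cd_union {A B : Set ℕ} (hA : CD A) (hB : CD B) : CD (A ∪ B) := by
  intro s
  rw [Set.union_sdiff_distrib]
  exact small_union (hA s) (hB s)

theorem cd_finite {A : Set ℕ} (hA : A.Finite) : CD A :=
  fun _ => small_finite hA.sdiff (fun h => h.2 rfl)

theorem cd_small {A : Set ℕ} (hA : CD A) {s : ℕ} (hs : s ∉ A) : Small s A := by
  refine small_mono (hA s) fun t ht => ⟨ht, ?_⟩
  rintro rfl
  exact hs ht

theorem cd_opn {A : Set ℕ} (hA : CD A) : Opn Aᶜ := by
  intro s hs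
  rw [compl_compl]
  exact cd_small hA hs

/-- a sequence converging to a point outside `range loc` is closed discrete -/
theorem cd_seq {z : ℕ → ℕ} {x : ℕ → Bool}
    (h : Tendsto (fun n => loc (z n)) atTop (𝓝 x)) (hx : x ∉ Set.range loc) :
    CD (Set.range z) := by
  intro s
  have hne : ∃ m, ¬ Ag x (loc s) m := by
    by_contra hno
    push Not at hno
    apply hx
    refine ⟨s, ?_⟩
    funext i
    exact (hno (i + 1) i (Nat.lt_succ_self i)).symm
  obtain ⟨m, hm⟩ := hne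
  obtain ⟨N, hN⟩ := Filter.eventually_atTop.1 (tendsto_ag.1 h m)
  have hsub : Set.range z \ {s} ⊆ (z '' {n | n < N} \ {s}) ∪ {t | ¬ Ag (loc t) (loc s) m} := by
    rintro _ ⟨⟨n, rfl⟩, hn⟩
    by_cases hnN : n < N
    · exact Or.inl ⟨⟨n, hnN, rfl⟩, hn⟩
    · refine Or.inr fun h' => hm ?_
      exact ag_trans (ag_symm (hN n (not_lt.1 hnN))) h'
  refine small_mono (small_union (small_finite ?_ ?_) (small_far m fun t ht => ht)) hsub
  · exact ((Set.finite_lt_nat N).image z).sdiff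
  · exact fun h => h.2 rfl

theorem opn_univ : Opn Set.univ := by
  intro s _
  rw [Set.compl_univ]
  exact small_empty s

theorem opn_inter {U V : Set ℕ} (hU : Opn U) (hV : Opn V) : Opn (U ∩ V) := by
  intro s hs
  rw [Set.compl_inter]
  exact small_union (hU s hs.1) (hV s hs.2)

theorem opn_sUnion {S : Set (Set ℕ)} (h : ∀ U ∈ S, Opn U) : Opn (⋃₀ S) := by
  intro s hs
  obtain ⟨U, hU, hsU⟩ := hs
  refine small_mono (h U hU s hsU) ?_
  exact Set.compl_subset_compl.2 (Set.subset_sUnion_of_mem hU)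

theorem opn_of_mopen {W : Set ℕ} (h : MOpen W) : Opn W := by
  intro s hs
  obtain ⟨m, hm⟩ := h s hs
  exact small_far m fun t ht h' => ht (hm t h')

theorem ch_conv {s : ℕ} {q : ℕ → ℕ} (hq : Ch s q) {U : Set ℕ} (hU : Opn U) (hs : s ∈ U) :
    ∀ᶠ n in atTop, q n ∈ U := by
  filter_upwards [small_ch (hU s hs) hq] with n hn
  exact not_not.1 hn

end Pool.Agent.Lib_helper25.Stk
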