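import Mathlib

set_option autoImplicit false

open Set Filter Topology Cardinal

namespace Pool.Agent.Lib_helper25.Stk

/-- Locations of the countable dense set: binary digits of `n`. -/
def loc (n : ℕ) : ℕ → Bool := fun i => n.testBit i

/-- `x` and `y` agree below `m` -/
def Ag (x y : ℕ → Bool) (m : ℕ) : Prop := ∀ i < m, x i = y i

/-- every natural number is a value infinitely often -/
def kap (j : ℕ) : ℕ := (Nat.unpair j).1

/-- index of the annulus around `s` containing `t` (for `t ≠ s`) -/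
noncomputable def ann (s t : ℕ) : ℕ := sInf {i | loc t i ≠ loc s i}

/-- immediate predecessor relation of the forest at `s` -/
def Rl (s t t' : ℕ) : Prop := kap (ann s t') = t ∧ t ≠ s ∧ t' ≠ s ∧ ann s t < ann s t'

/-- the forest order at `s` -/
def Lt (s : ℕ) : ℕ → ℕ → Prop := Relation.TransGen (Rl s)

/-- `q` is a chain of the forest at `s` -/
def Ch (s : ℕ) (q : ℕ → ℕ) : Prop := ∀ n, Lt s (q n) (q (n + 1))

/-- open for the location topology -/
def MOpen (W : Set ℕ) : Prop := ∀ t ∈ W, ∃ m, ∀ t', Ag (loc t') (loc t) m → t' ∈ W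

/-- sets which are separated from `s` -/
def Small (s : ℕ) (A : Set ℕ) : Prop :=
  ∃ W, MOpen W ∧ A ⊆ W ∧ s ∉ W ∧ ∀ q, Ch s q → ∃ n, q n ∉ W

/-- the open sets of the topology on the countable set -/
def Opn (U : Set ℕ) : Prop := ∀ s ∈ U, Small s Uᶜ

/-- closed discrete sets -/
def CD (A : Set ℕ) : Prop := ∀ s, Small s (A \ {s})

/-- strict linear orders -/
structure StrictLin (r : ℕ → ℕ → Prop) : Prop where
  irrefl : ∀ a, ¬ r a a
  trans : ∀ a b c, r a b → r b c → r a c
  total : ∀ a b, a ≠ b → r a b ∨ r b a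

/-- no chain at `s` is increasing above `s` or decreasing below `s` -/
def NoMono (r : ℕ → ℕ → Prop) : Prop :=
  ∀ s q, Ch s q → ¬ (r s (q 0) ∧ ∀ n, r (q n) (q (n + 1))) ∧
    ¬ (r (q 0) s ∧ ∀ n, r (q (n + 1)) (q n))

/-- the orders still to be killed -/
def GG : Type := {r : ℕ → ℕ → Prop // StrictLin r ∧ NoMono r}

/-- Stäckel-compact spaces -/
def StackelCompact (X : Type) [TopologicalSpace X] : Prop :=
  T2Space X ∧ ∃ _ : LinearOrder X, ∀ C : Set X, IsClosed C → C.Nonempty →
    (∃ a, IsLeast C a) ∧ ∃ b, IsGreatest C b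

end Pool.Agent.Lib_helper25.Stk
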