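import Pool.Agent.Lib_helper25.Stk.Basic

set_option autoImplicit false

open Set Filter Topology Cardinal

namespace Pool.Agent.Lib_helper25.Stk

/-- a family of pairs of sequences converging to distinct points outside `range loc` -/
structure Fam (G : Type) where
  β : G → Bool → ℕ → Bool
  Z : G → Bool → ℕ → ℕ
  hβ : ∀ ξ b, β ξ b ∉ Set.range loc
  hinj : ∀ ξ b ξ' b', β ξ b = β ξ' b' → ξ = ξ' ∧ b = b'
  hZ : ∀ ξ b, Function.Injective (Z ξ b)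
  hlim : ∀ ξ b, Tendsto (fun n => loc (Z ξ b n)) atTop (𝓝 (β ξ b))

section
variable {G : Type} (D : Fam G)

/-- open sets of the space `ℕ ⊕ G` -/
def TOpen (U : Set (ℕ ⊕ G)) : Prop :=
  Opn {k | Sum.inl k ∈ U} ∧
    ∀ ξ, Sum.inr ξ ∈ U → ∀ b, ∀ᶠ n in atTop, Sum.inl (D.Z ξ b n) ∈ U

/-- the part of `S` in `ℕ`, together with tails of the sequences of the members of `S` in `G` -/
def flat (S : Set (ℕ ⊕ G)) (F : G → ℕ) : Set ℕ :=
  {k | Sum.inl k ∈ S ∨ ∃ ξ b n, Sum.inr ξ ∈ S ∧ F ξ ≤ n ∧ D.Z ξ b n = k}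

/-- the good subsets of `ℕ ⊕ G` -/
structure Good (S : Set (ℕ ⊕ G)) : Prop where
  ctbl : {ξ : G | Sum.inr ξ ∈ S}.Countable
  cd : ∃ F : G → ℕ, CD (flat D S F)
  fin : ∀ ξ b, {n | Sum.inl (D.Z ξ b n) ∈ S}.Finite

/-- the space `Y`: ultrafilters on `ℕ ⊕ G` containing a good set -/
def Yt : Type := {v : Ultrafilter (ℕ ⊕ G) // ∃ S ∈ v, Good D S}

/-- `V` is open iff every `v ∈ V` has a basic neighbourhood inside `V` -/
instance : TopologicalSpace (Yt D) where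
  IsOpen V := ∀ v ∈ V, ∃ U, TOpen D U ∧ U ∈ v.1 ∧ ∀ v' : Yt D, U ∈ v'.1 → v' ∈ V
  isOpen_univ := by
    intro v _
    exact ⟨Set.univ, ⟨opn_univ, fun _ _ _ => Filter.Eventually.of_forall fun _ => trivial⟩,
      Filter.univ_mem, fun _ _ => trivial⟩
  isOpen_inter := by
    intro V V' hV hV' v hv
    obtain ⟨U, h1, h2, h3⟩ := hV v hv.1
    obtain ⟨U', h1', h2', h3'⟩ := hV' v hv.2
    refine ⟨U ∩ U', ⟨opn_inter h1.1 h1'.1, fun ξ hξ b => ?_⟩, Filter.inter_mem h2 h2',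
      fun v' hv' => ⟨h3 v' (Filter.mem_of_superset hv' Set.inter_subset_left),
        h3' v' (Filter.mem_of_superset hv' Set.inter_subset_right)⟩⟩
    exact (h1.2 ξ hξ.1 b).and (h1'.2 ξ hξ.2 b)
  isOpen_sUnion := by
    intro S hS v hv
    obtain ⟨V, hVS, hvV⟩ := hv
    obtain ⟨U, h1, h2, h3⟩ := hS V hVS v hvV
    exact ⟨U, h1, h2, fun v' hv' => ⟨V, hVS, h3 v' hv'⟩⟩

/-- basic open sets are open -/
theorem isOpen_basic {U : Set (ℕ ⊕ G)} (hU : TOpen D U) : IsOpen {v : Yt D | U ∈ v.1} :=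
  fun _ hv => ⟨U, hU, hv, fun _ h => h⟩

theorem tendsto_yt {α : Type*} (u : α → Yt D) (f : Filter α) (y : Yt D) :
    Tendsto u f (𝓝 y) ↔ ∀ U, TOpen D U → U ∈ y.1 → ∀ᶠ a in f, U ∈ (u a).1 := by
  rw [tendsto_nhds]
  constructor
  · intro h U hU hy
    exact h _ (isOpen_basic D hU) hy
  · intro h V hV hy
    obtain ⟨U, h1, h2, h3⟩ := hV y hy
    exact Filter.mem_of_superset (h U h1 h2) fun a ha => h3 _ ha

end

end Pool.Agent.Lib_helper25.Stk
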