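import Pool.Agent.Lib_helper25.Stk.AliasE

set_option autoImplicit false

open Set Filter Topology Cardinal

namespace Pool.Agent.Lib_helper25.Stk

theorem final_conv {Z : Type} [TopologicalSpace Z] [T2Space Z] (L : LinearOrder Z)
    (hL : ∀ C : Set Z, IsClosed C → C.Nonempty → (∃ a, IsLeast C a) ∧ ∃ b, IsGreatest C b)
    {u : ℕ → Z} {y : Z} (hu : Tendsto u atTop (𝓝 y)) :
    ((∀ n, u n < u (n + 1)) → u 0 < y) ∧ ((∀ n, u (n + 1) < u n) → y < u 0) := by
  have hK : IsClosed (insert y (Set.range u)) := hu.isCompact_insert_range.isClosed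
  obtain ⟨⟨a, ha, ha'⟩, ⟨b, hb, hb'⟩⟩ := hL _ hK ⟨y, Set.mem_insert _ _⟩
  have hmem : ∀ n, u n ∈ insert y (Set.range u) := fun n => Or.inr ⟨n, rfl⟩
  constructor
  · intro h
    rcases hb with rfl | ⟨n, rfl⟩
    · exact lt_of_lt_of_le (h 0) (hb' (hmem 1))
    · exact absurd (hb' (hmem (n + 1))) (not_le.2 (h n))
  · intro h
    rcases ha with rfl | ⟨n, rfl⟩
    · exact lt_of_le_of_lt (ha' (hmem 1)) (h 0)
    · exact absurd (ha' (hmem (n + 1))) (not_le.2 (h n))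

/-- FINAL -/
theorem final_pr : ∃ (X Y : Type) (_ : TopologicalSpace X) (_ : TopologicalSpace Y)
    (_ : T2Space Y) (f : X → Y), StackelCompact X ∧ Continuous f ∧
      ¬ StackelCompact (Set.range f) := by
  obtain ⟨D, hD1, hD2, hD3⟩ := fam
  have hY : T2Space (Yt D) := yt2 D
  have hT : #(ℕ ⊕ GG) ≤ 𝔠 := by
    rw [Cardinal.mk_sum, Cardinal.lift_id, Cardinal.lift_id]
    refine (add_le_add (?_ : #ℕ ≤ 𝔠) card_GG).trans ?_
    · rw [Cardinal.mk_nat]
      exact Cardinal.aleph0_le_continuum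
    · rw [Cardinal.continuum_add_self]
  obtain ⟨X, iX, f, hX, hf, hr⟩ := cover hT (emb D) (cc D)
  refine ⟨X, Yt D, iX, inferInstance, hY, f, hX, hf, ?_⟩
  rintro ⟨hT2, L, hL⟩
  let e : ℕ ⊕ GG → Set.range f := fun t => ⟨emb D t, hr ⟨t, rfl⟩⟩
  have he : Function.Injective e := fun a b h => emb_inj D (congrArg Subtype.val h)
  have hch : ∀ s q, Ch s q → Tendsto (fun n => e (Sum.inl (q n))) atTop (𝓝 (e (Sum.inl s))) := by
    intro s q hq
    rw [tendsto_subtype_rng]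
    exact emb_ch D hq
  have hZ : ∀ ξ b, Tendsto (fun n => e (Sum.inl (D.Z ξ b n))) atTop (𝓝 (e (Sum.inr ξ))) := by
    intro ξ b
    rw [tendsto_subtype_rng]
    exact emb_Z D ξ b
  let r : ℕ → ℕ → Prop := fun a b => e (Sum.inl a) < e (Sum.inl b)
  have hr1 : StrictLin r := by
    refine ⟨fun a => lt_irrefl _, fun a b c h h' => lt_trans h h', fun a b hab => ?_⟩
    refine lt_or_gt_of_ne fun h => hab ?_
    exact Sum.inl_injective (he h)
  have hr2 : NoMono r := by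
    intro s q hq
    have h := final_conv L hL (hch s q hq)
    constructor
    · rintro ⟨h1, h2⟩
      exact lt_asymm h1 (h.1 h2)
    · rintro ⟨h1, h2⟩
      exact lt_asymm h1 (h.2 h2)
  let ξ : GG := ⟨r, hr1, hr2⟩
  have h1 : e (Sum.inr ξ) < e (Sum.inl (D.Z ξ false 0)) :=
    (final_conv L hL (hZ ξ false)).2 (hD1 ξ)
  have h2 : e (Sum.inl (D.Z ξ true 0)) < e (Sum.inr ξ) :=
    (final_conv L hL (hZ ξ true)).1 (hD2 ξ)
  have h3 : e (Sum.inl (D.Z ξ false 0)) < e (Sum.inl (D.Z ξ true 0)) := hD3 ξ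
  exact lt_irrefl _ ((h1.trans h3).trans h2)

end Pool.Agent.Lib_helper25.Stk
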