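import Pool.Agent.Lib_helper25.Stk.DefsY

set_option autoImplicit false

open Set Filter Topology Cardinal

namespace Pool.Agent.Lib_helper25.Stk

/-- the topology with open sets `Opn` -/
@[instance_reducible] def normTop : TopologicalSpace ℕ where
  IsOpen := Opn
  isOpen_univ := opn_univ
  isOpen_inter := fun _ _ h h' => opn_inter h h'
  isOpen_sUnion := fun _ h => opn_sUnion h

theorem norm_fin {A : Set ℕ} {W : ℕ → Set ℕ} (hW : ∀ t, t ∉ A → MOpen (W t)) (k : ℕ) :
    MOpen {t' | ∀ t < k, t ∉ A → t' ∈ W t} := by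
  classical
  induction k with
  | zero =>
    intro t _
    exact ⟨0, fun t' _ => fun i hi => absurd hi (Nat.not_lt_zero i)⟩
  | succ k ih =>
    by_cases hk : k ∈ A
    · have : {t' | ∀ t < k + 1, t ∉ A → t' ∈ W t} = {t' | ∀ t < k, t ∉ A → t' ∈ W t} := by
        ext t'
        constructor
        · intro h t ht htA
          exact h t (Nat.lt_succ_of_lt ht) htA
        · intro h t ht htA
          rcases Nat.lt_succ_iff_lt_or_eq.1 ht with h1 | h1
          · exact h t h1 htA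
          · exact absurd (h1 ▸ hk) htA
      rw [this]
      exact ih
    · have : {t' | ∀ t < k + 1, t ∉ A → t' ∈ W t} =
          {t' | ∀ t < k, t ∉ A → t' ∈ W t} ∩ W k := by
        ext t'
        constructor
        · intro h
          exact ⟨fun t ht htA => h t (Nat.lt_succ_of_lt ht) htA, h k (Nat.lt_succ_self k) hk⟩
        · rintro ⟨h, h'⟩ t ht htA
          rcases Nat.lt_succ_iff_lt_or_eq.1 ht with h1 | h1
          · exact h t h1 htA
          · exact h1 ▸ h'
      rw [this]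
      exact mopen_inter ih (hW k hk)

/-- clopen separation of a closed set and a point -/
theorem norm_sep {A : Set ℕ} (hA : Opn Aᶜ) {s : ℕ} (hs : s ∉ A) :
    ∃ U, Opn U ∧ Opn Uᶜ ∧ A ⊆ U ∧ s ∉ U := by
  classical
  have hsm : ∀ t, t ∉ A → ∃ W, MOpen W ∧ A ⊆ W ∧ t ∉ W ∧ ∀ q, Ch t q → ∃ n, q n ∉ W := by
    intro t ht
    have := hA t ht
    rwa [compl_compl] at this
  choose! W hW1 hW2 hW3 hW4 using hsm
  have hM : ∀ c ∈ A, ∃ r, ∀ t', Ag (loc t') (loc c) r →
      t' ∈ W s ∧ ∀ t < c + 1, t ∉ A → t' ∈ W t := by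
    intro c hc
    have h1 : MOpen (W s ∩ {t' | ∀ t < c + 1, t ∉ A → t' ∈ W t}) :=
      mopen_inter (hW1 s hs) (norm_fin hW1 (c + 1))
    exact h1 c ⟨hW2 s hs hc, fun t _ ht => hW2 t ht hc⟩
  choose! r hr using hM
  set U : Set ℕ := ⋃ c : A, {t | Ag (loc t) (loc c.1) (r c.1)} with hU
  have hmem : ∀ t, t ∈ U ↔ ∃ c ∈ A, Ag (loc t) (loc c) (r c) := by
    intro t
    simp [hU]
  refine ⟨U, opn_of_mopen (mopen_iUnion fun c => mopen_ag _ _), ?_, ?_, ?_⟩
  · intro t ht
    rw [compl_compl]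
    have htA : t ∉ A := fun h => ht ((hmem t).2 ⟨t, h, ag_refl _ _⟩)
    have hsplit : U ⊆ (⋃ c ∈ ({c | c < t ∧ c ∈ A} : Set ℕ), {t' | Ag (loc t') (loc c) (r c)}) ∪
        W t := by
      intro t' ht'
      obtain ⟨c, hc, hct⟩ := (hmem t').1 ht'
      rcases Nat.lt_or_ge c t with h | h
      · left
        simp only [mem_iUnion]
        exact ⟨c, ⟨h, hc⟩, hct⟩
      · right
        exact (hr c hc t' hct).2 t (Nat.lt_succ_of_le h) htA
    refine small_mono (small_union (small_biUnion ?_ ?_) ?_) hsplit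
    · exact (Set.finite_lt_nat t).subset fun c hc => hc.1
    · rintro c ⟨_, hc⟩
      apply small_far (r c)
      intro t' ht' hag
      exact ht ((hmem t).2 ⟨c, hc, ag_trans (ag_symm hag) ht'⟩)
    · exact ⟨W t, hW1 t htA, Subset.rfl, hW3 t htA, hW4 t htA⟩
  · intro c hc
    exact (hmem c).2 ⟨c, hc, ag_refl _ _⟩
  · intro h
    obtain ⟨c, hc, hct⟩ := (hmem s).1 h
    exact hW3 s hs (hr c hc s hct).1

/-- NORM -/
theorem norm_pr {A B : Set ℕ} (hA : CD A) (hB : CD B) (hAB : Disjoint A B) :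
    ∃ U V, Opn U ∧ Opn V ∧ A ⊆ U ∧ B ⊆ V ∧ Disjoint U V := by
  let _ : TopologicalSpace ℕ := normTop
  have hreg : RegularSpace ℕ := by
    constructor
    intro A s hA hs
    obtain ⟨U, h1, h2, h3, h4⟩ := norm_sep (A := A) hA.isOpen_compl hs
    have h1' : IsOpen U := h1
    have h2' : IsOpen Uᶜ := h2
    rw [Filter.disjoint_iff]
    exact ⟨U, h1'.mem_nhdsSet.2 h3, Uᶜ, h2'.mem_nhds h4, disjoint_compl_right⟩
  have hlin : LindelofSpace ℕ := ⟨(Set.countable_univ).isLindelof⟩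
  have hnorm : NormalSpace ℕ := NormalSpace.of_regularSpace_lindelofSpace
  have hA' : IsClosed A := ⟨cd_opn hA⟩
  have hB' : IsClosed B := ⟨cd_opn hB⟩
  obtain ⟨U, V, hU, hV, hAU, hBV, hd⟩ := normal_separation hA' hB' hAB
  exact ⟨U, V, hU, hV, hAU, hBV, hd⟩

end Pool.Agent.Lib_helper25.Stk
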